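import Pool.Agent.JohD.SepN

/-!
# MODULE JohD/Adjust (making arbitrary elements good; abstract part)

`N` normal with a crossing element. Given curves `y, y'` there are a finite `P ⊆ N` and `K` such that for
every `a : G` some `h * a * h'`, with `h, h' ∈ P`, is good between `y` and `y'`.

Proof. By `many` (with `n = 4`) choose `f i ∈ N` (`i < 4`) with `WF (f i • y) (f j • y)` for `i ≠ j`, put
`p i = (f i)⁻¹`, `y_i = f i • y`; and `g j ∈ N` (`j < 4`) with `WF (g i • y') (g j • y')` for `i ≠ j`, put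
`y'_j = g j • y'`. `P = {p i} ∪ {g j}`. Let `K₁` be a bound for all the numbers
`d y_i y_j (pt b y_i 1)`, `d y'_i y'_j (pt b y'_i 1)` (`i ≠ j`) and
`dd b y_i (f i) 1`, `dd b y'_j (g j) 1`; `K = 4 κ + 2 K₁ + 1`.

Let `a : G`. For a pair `(i, j)` consider the three bad events:
(A) `¬ cr y_i (a • y'_j)`. For given `j` at most one `i` (since `a • y'_j` crosses `y_i` or `y_i'`).
(B) not (A), and `2 κ + K₁ < d y_i (a • y'_j) (pt b y_i 1)`. For given `j` at most one `i`: suppose `i ≠ i'`
  both satisfy (B), `w = a • y'_j`. Then `d y_i w y_{i'} > κ`: otherwise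
  `d y_i w (pt b y_i 1) ≤ d y_i w y_{i'} + d y_i y_{i'} (pt b y_i 1) + κ ≤ 2 κ + K₁`. (All cross `y_i`.)
  Likewise `d y_{i'} w y_i > κ`. This contradicts `beh y_i y_{i'} w` (`cr y_i y_{i'}` by `WF.cr`).
(C) not (A), and `2 κ + K₁ < d y'_j (a⁻¹ • y_i) (pt b y'_j 1)`. For given `i` at most one `j`: same proof.
Each event has at most `4` pairs, so at most `12 < 16` pairs are bad. Take a pair `(i, j)` which is in none
of the events, `h = p i`, `h' = g j`. Then, translating by `f i = h⁻¹`,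
`cr y (h * a * h' • y') ↔ cr y_i (a • y'_j)`, and
`d y (h a h' • y') (pt b y 1) = d y_i (a • y'_j) (f i • pt b y 1)` where `f i • pt b y 1 = pt b y_i (f i)`
(`pt_smul`), so it is at most `2 κ + K₁ + dd b y_i 1 (f i) + κ ≤ K`. Similarly, translating by `g j`,
`d y' ((h a h')⁻¹ • y) (pt b y' 1) = d y'_j (a⁻¹ • y_i) (pt b y'_j (g j)) ≤ K`.

(Instead of counting one can argue: the relation `¬ (good)` etc.; a clean way is to show that the finset of
pairs of `Finset.range 4 ×ˢ Finset.range 4` in each event injects into `Finset.range 4` by one of the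
projections, and use `Finset.card_union_le`.)

`Gd.inv`: `h` good between `y` and `y'` iff `h⁻¹` good between `y'` and `y`. `Gd.mono`: trivial.
-/

namespace Pool.JohD

namespace Sys

variable {G Y : Type} [Group G] [MulAction G Y] {X : Sys G Y}

theorem Gd.inv {b : X.Base} {K : ℕ} {y y' : Y} {h : G} (hg : Gd b K y h y') :
    Gd b K y' h⁻¹ y where
  cr := by
    apply X.cr_symm
    have h1 := (X.cr_smul h⁻¹ y (h • y')).mpr hg.cr
    rwa [inv_smul_smul] at h1
  left := hg.right
  right := by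
    rw [inv_inv]
    exact hg.left

theorem Gd.mono {b : X.Base} {K K' : ℕ} {y y' : Y} {h : G} (hg : Gd b K y h y') (hK : K ≤ K') :
    Gd b K' y h y' :=
  ⟨hg.cr, hg.left.trans hK, hg.right.trans hK⟩

/-- Counting: a pair outside three small events. -/
theorem adjust_pick (A B C : ℕ → ℕ → Prop)
    (hA : ∀ j < 4, ∀ i < 4, ∀ i' < 4, A i j → A i' j → i = i')
    (hB : ∀ j < 4, ∀ i < 4, ∀ i' < 4, B i j → B i' j → i = i')
    (hC : ∀ i < 4, ∀ j < 4, ∀ j' < 4, C i j → C i j' → j = j') :
    ∃ i < 4, ∃ j < 4, ¬ A i j ∧ ¬ B i j ∧ ¬ C i j := by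
  classical
  by_contra hcon
  push Not at hcon
  set R : Finset (ℕ × ℕ) := Finset.range 4 ×ˢ Finset.range 4 with hR
  have hsub : R ⊆ (R.filter (fun p => A p.1 p.2) ∪ R.filter (fun p => B p.1 p.2)) ∪
      R.filter (fun p => C p.1 p.2) := by
    intro p hp
    have hp' := hp
    rw [hR, Finset.mem_product, Finset.mem_range, Finset.mem_range] at hp'
    simp only [Finset.mem_union, Finset.mem_filter]
    by_cases h1 : A p.1 p.2
    · exact Or.inl (Or.inl ⟨hp, h1⟩)
    by_cases h2 : B p.1 p.2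
    · exact Or.inl (Or.inr ⟨hp, h2⟩)
    exact Or.inr ⟨hp, hcon p.1 hp'.1 p.2 hp'.2 h1 h2⟩
  have cA : (R.filter (fun p => A p.1 p.2)).card ≤ 4 := by
    have := Finset.card_le_card_of_injOn (s := R.filter (fun p => A p.1 p.2))
      (t := Finset.range 4) Prod.snd ?_ ?_
    · simpa using this
    · intro p hp
      have hp := Finset.mem_coe.mp hp
      rw [Finset.mem_filter, hR, Finset.mem_product] at hp
      exact Finset.mem_coe.mpr hp.1.2
    · intro p hp q hq hpq
      have hp := Finset.mem_coe.mp hp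
      have hq := Finset.mem_coe.mp hq
      rw [Finset.mem_filter, hR, Finset.mem_product, Finset.mem_range, Finset.mem_range] at hp hq
      have hpq' : p.2 = q.2 := hpq
      refine Prod.ext (hA p.2 hp.1.2 p.1 hp.1.1 q.1 hq.1.1 hp.2 ?_) hpq'
      rw [hpq']
      exact hq.2
  have cB : (R.filter (fun p => B p.1 p.2)).card ≤ 4 := by
    have := Finset.card_le_card_of_injOn (s := R.filter (fun p => B p.1 p.2))
      (t := Finset.range 4) Prod.snd ?_ ?_
    · simpa using this
    · intro p hp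
      have hp := Finset.mem_coe.mp hp
      rw [Finset.mem_filter, hR, Finset.mem_product] at hp
      exact Finset.mem_coe.mpr hp.1.2
    · intro p hp q hq hpq
      have hp := Finset.mem_coe.mp hp
      have hq := Finset.mem_coe.mp hq
      rw [Finset.mem_filter, hR, Finset.mem_product, Finset.mem_range, Finset.mem_range] at hp hq
      have hpq' : p.2 = q.2 := hpq
      refine Prod.ext (hB p.2 hp.1.2 p.1 hp.1.1 q.1 hq.1.1 hp.2 ?_) hpq'
      rw [hpq']
      exact hq.2
  have cC : (R.filter (fun p => C p.1 p.2)).card ≤ 4 := by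
    have := Finset.card_le_card_of_injOn (s := R.filter (fun p => C p.1 p.2))
      (t := Finset.range 4) Prod.fst ?_ ?_
    · simpa using this
    · intro p hp
      have hp := Finset.mem_coe.mp hp
      rw [Finset.mem_filter, hR, Finset.mem_product] at hp
      exact Finset.mem_coe.mpr hp.1.1
    · intro p hp q hq hpq
      have hp := Finset.mem_coe.mp hp
      have hq := Finset.mem_coe.mp hq
      rw [Finset.mem_filter, hR, Finset.mem_product, Finset.mem_range, Finset.mem_range] at hp hq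
      have hpq' : p.1 = q.1 := hpq
      refine Prod.ext hpq' (hC p.1 hp.1.1 p.2 hp.1.2 q.2 hq.1.2 hp.2 ?_)
      rw [hpq']
      exact hq.2
  have cR : R.card = 16 := by simp [hR]
  have := (Finset.card_le_card hsub).trans ((Finset.card_union_le _ _).trans
    (Nat.add_le_add_right (Finset.card_union_le _ _) _))
  omega

/-- Two crossing curves cannot both be far from `w` (in the sense of the projection of `1`). -/
theorem adjust_far (b : X.Base) {y₁ y₂ w : Y} {K₁ : ℕ} (h12 : X.cr y₁ y₂) (h1 : X.cr y₁ w)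
    (h2 : X.cr y₂ w) (k1 : X.d y₁ y₂ (pt b y₁ 1) ≤ K₁) (k2 : X.d y₂ y₁ (pt b y₂ 1) ≤ K₁)
    (f1 : 2 * X.κ + K₁ < X.d y₁ w (pt b y₁ 1)) (f2 : 2 * X.κ + K₁ < X.d y₂ w (pt b y₂ 1)) :
    False := by
  have t1 := X.d_tri y₁ w y₂ (pt b y₁ 1) h1 h12 (pt_cr b y₁ 1)
  have t2 := X.d_tri y₂ w y₁ (pt b y₂ 1) h2 (X.cr_symm h12) (pt_cr b y₂ 1)
  have s1 := X.d_symm y₁ w y₂
  have s2 := X.d_symm y₂ w y₁
  have := X.beh y₁ y₂ w h12 h1 h2 (by omega)
  omega

/-- The translated estimate. -/
theorem adjust_est (b : X.Base) {y w : Y} {f c : G} {K₁ : ℕ}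
    (hc : f • c • w = w) (hcr : X.cr (f • y) w) (hd : X.d (f • y) w (pt b (f • y) 1) ≤ 2 * X.κ + K₁)
    (hf : dd b (f • y) f 1 ≤ K₁) : X.d y (c • w) (pt b y 1) ≤ 4 * X.κ + 2 * K₁ + 1 := by
  have e1 := X.d_smul f y (c • w) (pt b y 1)
  rw [hc, ← pt_smul b f y 1, mul_one] at e1
  rw [← e1]
  have t1 := X.d_tri (f • y) w (pt b (f • y) 1) (pt b (f • y) f) hcr (pt_cr b _ _) (pt_cr b _ _)
  have s1 := X.d_symm (f • y) (pt b (f • y) 1) (pt b (f • y) f)
  unfold dd at hf
  omega

theorem adjust (F : X.Full) (N : Subgroup G) [N.Normal] (hN : ∃ ν ∈ N, ∃ e, X.cr e (ν • e))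
    (y y' : Y) :
    ∃ (P : Finset G) (K : ℕ), (∀ h ∈ P, h ∈ N) ∧
      ∀ a : G, ∃ h ∈ P, ∃ h' ∈ P, Gd F.toBase K y (h * a * h') y' := by
  classical
  obtain ⟨f, hfN, hf⟩ := many F N hN y 4
  obtain ⟨g, hgN, hg⟩ := many F N hN y' 4
  set b := F.toBase with hb
  let E : ℕ → ℕ → ℕ := fun i j =>
    X.d (f i • y) (f j • y) (pt b (f i • y) 1) + X.d (g i • y') (g j • y') (pt b (g i • y') 1) +
      dd b (f i • y) (f i) 1 + dd b (g i • y') (g i) 1
  let K₁ : ℕ := ∑ i ∈ Finset.range 4, ∑ j ∈ Finset.range 4, E i j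
  have hE : ∀ i < 4, ∀ j < 4, E i j ≤ K₁ := by
    intro i hi j hj
    have h1 : E i j ≤ ∑ j ∈ Finset.range 4, E i j :=
      Finset.single_le_sum (f := fun j => E i j) (fun _ _ => Nat.zero_le _)
        (Finset.mem_range.mpr hj)
    have h2 : ∑ j ∈ Finset.range 4, E i j ≤ K₁ :=
      Finset.single_le_sum (f := fun i => ∑ j ∈ Finset.range 4, E i j)
        (fun _ _ => Nat.zero_le _) (Finset.mem_range.mpr hi)
    exact h1.trans h2
  have hE1 : ∀ i < 4, ∀ j < 4, X.d (f i • y) (f j • y) (pt b (f i • y) 1) ≤ K₁ := by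
    intro i hi j hj
    have := hE i hi j hj
    simp only [E] at this
    omega
  have hE2 : ∀ i < 4, ∀ j < 4, X.d (g i • y') (g j • y') (pt b (g i • y') 1) ≤ K₁ := by
    intro i hi j hj
    have := hE i hi j hj
    simp only [E] at this
    omega
  have hE3 : ∀ i < 4, dd b (f i • y) (f i) 1 ≤ K₁ := by
    intro i hi
    have := hE i hi i hi
    simp only [E] at this
    omega
  have hE4 : ∀ i < 4, dd b (g i • y') (g i) 1 ≤ K₁ := by
    intro i hi
    have := hE i hi i hi
    simp only [E] at this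
    omega
  refine ⟨(Finset.range 4).image (fun i => (f i)⁻¹) ∪ (Finset.range 4).image g,
    4 * X.κ + 2 * K₁ + 1, ?_, ?_⟩
  · intro h hh
    rw [Finset.mem_union, Finset.mem_image, Finset.mem_image] at hh
    rcases hh with ⟨i, hi, rfl⟩ | ⟨i, hi, rfl⟩
    · exact N.inv_mem (hfN i (Finset.mem_range.mp hi))
    · exact hgN i (Finset.mem_range.mp hi)
  · intro a
    obtain ⟨i, hi, j, hj, nA, nB, nC⟩ := adjust_pick
      (fun i j => ¬ X.cr (f i • y) (a • g j • y'))
      (fun i j => X.cr (f i • y) (a • g j • y') ∧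
        2 * X.κ + K₁ < X.d (f i • y) (a • g j • y') (pt b (f i • y) 1))
      (fun i j => X.cr (f i • y) (a • g j • y') ∧
        2 * X.κ + K₁ < X.d (g j • y') (a⁻¹ • f i • y) (pt b (g j • y') 1))
      (by
        intro j _ i hi i' hi' h1 h2
        by_contra hne
        rcases hf i hi i' hi' hne (a • g j • y') with h3 | h3
        · exact h1 (X.cr_symm h3)
        · exact h2 (X.cr_symm h3))
      (by
        intro j _ i hi i' hi' h1 h2
        by_contra hne
        exact adjust_far b (WF.cr (hf i hi i' hi' hne)) h1.1 h2.1 (hE1 i hi i' hi')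
          (hE1 i' hi' i hi) h1.2 h2.2)
      (by
        intro i _ j hj j' hj' h1 h2
        by_contra hne
        have c : ∀ j, X.cr (f i • y) (a • g j • y') → X.cr (g j • y') (a⁻¹ • f i • y) := by
          intro j hc
          apply X.cr_symm
          have h1 := (X.cr_smul a⁻¹ _ _).mpr hc
          rwa [inv_smul_smul] at h1
        exact adjust_far b (WF.cr (hg j hj j' hj' hne)) (c j h1.1) (c j' h2.1) (hE2 j hj j' hj')
          (hE2 j' hj' j hj) h1.2 h2.2)
    have hcr : X.cr (f i • y) (a • g j • y') := not_not.mp nA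
    have hB : X.d (f i • y) (a • g j • y') (pt b (f i • y) 1) ≤ 2 * X.κ + K₁ := by
      by_contra h
      exact nB ⟨hcr, not_le.mp h⟩
    have hC : X.d (g j • y') (a⁻¹ • f i • y) (pt b (g j • y') 1) ≤ 2 * X.κ + K₁ := by
      by_contra h
      exact nC ⟨hcr, not_le.mp h⟩
    have hcr' : X.cr (g j • y') (a⁻¹ • f i • y) := by
      apply X.cr_symm
      have h1 := (X.cr_smul a⁻¹ _ _).mpr hcr
      rwa [inv_smul_smul] at h1
    refine ⟨(f i)⁻¹, ?_, g j, ?_, ?_⟩
    · exact Finset.mem_union_left _ (Finset.mem_image.mpr ⟨i, Finset.mem_range.mpr hi, rfl⟩)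
    · exact Finset.mem_union_right _ (Finset.mem_image.mpr ⟨j, Finset.mem_range.mpr hj, rfl⟩)
    · have e1 : ((f i)⁻¹ * a * g j) • y' = (f i)⁻¹ • a • g j • y' := by
        rw [mul_smul, mul_smul]
      have e2 : ((f i)⁻¹ * a * g j)⁻¹ • y = (g j)⁻¹ • a⁻¹ • f i • y := by
        rw [mul_inv_rev, mul_inv_rev, inv_inv, mul_smul, mul_smul]
      constructor
      · rw [e1]
        have h1 := (X.cr_smul (f i)⁻¹ _ _).mpr hcr
        rwa [inv_smul_smul] at h1
      · rw [e1]
        exact adjust_est b (smul_inv_smul _ _) hcr hB (hE3 i hi)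
      · rw [e2]
        exact adjust_est b (smul_inv_smul _ _) hcr' hC (hE4 j hj)

end Sys

end Pool.JohD
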