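import Mathlib

/-!
# MODULE JohD/Anal (the limits; pure real analysis)

`h, N : ℕ → ℕ` monotone, `1 ≤ N n ≤ h n ≤ D ^ n`, and for all `r, k`
`h r ^ (2 k) ≤ (k+1) ^ (h r) * (p ^ (4 k) * (C ^ (2 k + 2) * (n + 1).choose (q (2 k + 2)) * N n))`,
`n = 2 k (r + c) + c`. Claim: `log (h n) / n` and `log (N n) / n` tend to a common limit.

Proof. All the numbers are nonnegative; `p, C ≥ 1` may be assumed (if `p = 0` or `C = 0` the inequality for
`k = 1` gives `h r ^ 2 ≤ 0`). Let `n_k = 2 k (r + c) + c`. Use `choose (n+1) j ≤ (e (n+1) / j) ^ j` (from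
`Nat.choose_le_pow_div` and `j! ≥ (j/e)^j`) or any bound of the form
`log (choose (n+1) j) ≤ j * (1 + log ((n+1) / j))` for `1 ≤ j ≤ n + 1` (and it is `0` otherwise).
Taking logarithms: `2 k log (h r) ≤ h r * log (k+1) + 4 k log p + (2k+2) log C + log choose + log (N n_k)`.
With `j = q (2k+2)`: `j * (1 + log ((n_k + 1)/j)) / n_k → (q / (r + c)) (1 + log ((r+c)/q))` as `k → ∞` (if
`r + c ≥ q`), and everything else divided by `n_k`:
`liminf_k log (N n_k) / n_k ≥ (log (h r) - 2 log p - log C - q (1 + log ((r + c)/q))) / (r + c)`.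
Since `N` is monotone and `n_{k+1} - n_k = 2 (r + c)` is bounded, `n_{k+1} / n_k → 1`, so
`liminf_n log (N n) / n` is at least the same number, for every `r` with `r + c ≥ q`. Now let `r → ∞` along a
sequence realising `limsup log (h r) / r`: the right side tends to this limsup
(`log (r + c) / (r + c) → 0`). So `liminf log N / n ≥ limsup log h / n`. As `N ≤ h`, all four numbers are
equal (all are in `[0, log D]`), and both sequences converge.

`anal_half`: `g r ≤ p ^ 2 * (C ^ 4 * (m + 1).choose (q * 4) * N m)`, `m = 2 (r + c) + c`; `log (g r) / r → ℓ'`,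
`log (N n) / n → ℓ`. Then `ℓ' ≤ 2 ℓ`. Proof: take logarithms, divide by `r`;
`choose (m+1) (4 q) ≤ (m+1) ^ (4 q)`, `log (m+1) / r → 0`, `log (N m) / r = (log (N m) / m) (m / r) → 2 ℓ`.
-/

namespace Pool.JohD

open Filter

theorem an_choose {m j : ℕ} {x : ℝ} (hx : 0 < x) : (m.choose j : ℝ) * x ^ j ≤ (1 + x) ^ m := by
  rcases Nat.lt_or_ge m j with h | h
  · rw [Nat.choose_eq_zero_of_lt h]
    simp only [Nat.cast_zero, zero_mul]
    positivity
  · rw [add_comm 1 x, add_pow]
    have h1 : (m.choose j : ℝ) * x ^ j = x ^ j * 1 ^ (m - j) * (m.choose j : ℝ) := by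
      rw [one_pow]
      ring
    rw [h1]
    exact Finset.single_le_sum (f := fun i => x ^ i * 1 ^ (m - i) * (m.choose i : ℝ))
      (fun i _ => by positivity) (Finset.mem_range.2 (by omega))

theorem an_log_choose {m j : ℕ} {x : ℝ} (hx : 0 < x) (hc : 0 < m.choose j) :
    Real.log (m.choose j) ≤ m * x - j * Real.log x := by
  have h1 := an_choose (m := m) (j := j) hx
  have h2 : 0 < (m.choose j : ℝ) := by exact_mod_cast hc
  have h3 := Real.log_le_log (by positivity) h1
  rw [Real.log_mul h2.ne' (by positivity), Real.log_pow, Real.log_pow] at h3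
  have h4 : Real.log (1 + x) ≤ x := by
    have := Real.log_le_sub_one_of_pos (show 0 < 1 + x by linarith)
    linarith
  have h5 : (m : ℝ) * Real.log (1 + x) ≤ m * x :=
    mul_le_mul_of_nonneg_left h4 (Nat.cast_nonneg m)
  linarith

theorem an_log {h N : ℕ → ℕ} {p C q c : ℕ} (h1 : ∀ n, 1 ≤ N n) (h2 : ∀ n, N n ≤ h n)
    (hI : ∀ r k : ℕ, h r ^ (2 * k) ≤
      (k + 1) ^ (h r) * (p ^ (4 * k) * (C ^ (2 * k + 2) *
        (2 * k * (r + c) + c + 1).choose (q * (2 * k + 2)) * N (2 * k * (r + c) + c))))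
    (hp : 1 ≤ p) (hC : 1 ≤ C) (r k : ℕ) {x : ℝ} (hx : 0 < x) :
    2 * k * Real.log (h r) ≤ h r * Real.log (k + 1) + 4 * k * Real.log p +
      (2 * k + 2) * Real.log C + (((2 * k * (r + c) + c : ℕ) : ℝ) + 1) * x -
      q * (2 * k + 2) * Real.log x + Real.log (N (2 * k * (r + c) + c)) := by
  have e := hI r k
  set n := 2 * k * (r + c) + c with hn
  have hh : 1 ≤ h r := (h1 r).trans (h2 r)
  have hc : 0 < (n + 1).choose (q * (2 * k + 2)) := by
    rcases Nat.eq_zero_or_pos ((n + 1).choose (q * (2 * k + 2))) with h0 | h0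
    · rw [h0, mul_zero, zero_mul, mul_zero, mul_zero] at e
      have : 0 < h r ^ (2 * k) := pow_pos hh _
      omega
    · exact h0
  have hpR : (0 : ℝ) < p := by exact_mod_cast hp
  have hCR : (0 : ℝ) < C := by exact_mod_cast hC
  have hhR : (0 : ℝ) < h r := by exact_mod_cast hh
  have hNR : (0 : ℝ) < N n := by exact_mod_cast h1 n
  have hcR : (0 : ℝ) < ((n + 1).choose (q * (2 * k + 2)) : ℝ) := by exact_mod_cast hc
  have hkR : (0 : ℝ) < (k : ℝ) + 1 := by positivity
  have e' : (h r : ℝ) ^ (2 * k) ≤ ((k : ℝ) + 1) ^ (h r) * ((p : ℝ) ^ (4 * k) *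
      ((C : ℝ) ^ (2 * k + 2) * ((n + 1).choose (q * (2 * k + 2)) : ℝ) * (N n : ℝ))) := by
    exact_mod_cast e
  have e2 := Real.log_le_log (by positivity) e'
  rw [Real.log_mul (by positivity) (by positivity), Real.log_mul (by positivity) (by positivity),
    Real.log_mul (by positivity) (by positivity), Real.log_mul (by positivity) (by positivity),
    Real.log_pow, Real.log_pow, Real.log_pow, Real.log_pow] at e2
  have e3 := an_log_choose hx hc
  push_cast at e2 e3 ⊢
  linarith

theorem an_low {h N : ℕ → ℕ} {p C q c : ℕ} (hN : Monotone N) (h1 : ∀ n, 1 ≤ N n)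
    (h2 : ∀ n, N n ≤ h n)
    (hI : ∀ r k : ℕ, h r ^ (2 * k) ≤
      (k + 1) ^ (h r) * (p ^ (4 * k) * (C ^ (2 * k + 2) *
        (2 * k * (r + c) + c + 1).choose (q * (2 * k + 2)) * N (2 * k * (r + c) + c))))
    (hp : 1 ≤ p) (hC : 1 ≤ C) (r : ℕ) (hr : 1 ≤ r) {x : ℝ} (hx : 0 < x) :
    ∃ K : ℝ, 0 ≤ K ∧ ∀ n : ℕ, c ≤ n →
      (n : ℝ) * ((Real.log (h r) - (2 * Real.log p + Real.log C - q * Real.log x)) / (r + c) - x) -
        K * (1 + Real.log (n + 1)) ≤ Real.log (N n) := by
  set A := Real.log (h r) - (2 * Real.log p + Real.log C - q * Real.log x) with hA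
  have hlC : 0 ≤ Real.log C := Real.log_natCast_nonneg C
  refine ⟨(2 + c) * |A| + h r + 2 * Real.log C + 2 * q * |Real.log x| + x, by positivity, ?_⟩
  intro n hn
  set k := (n - c) / (2 * (r + c)) with hk
  have hpos : 0 < 2 * (r + c) := by omega
  have hk1 : 2 * k * (r + c) + c ≤ n := by
    have h3 := Nat.div_mul_le_self (n - c) (2 * (r + c))
    rw [← hk] at h3
    have h4 : 2 * k * (r + c) = k * (2 * (r + c)) := by ring
    omega
  have hk2 : n < 2 * k * (r + c) + c + 2 * (r + c) := by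
    have h3 := Nat.lt_div_mul_add (a := n - c) hpos
    rw [← hk] at h3
    have h4 : 2 * k * (r + c) = k * (2 * (r + c)) := by ring
    omega
  have hkn : k ≤ n := (Nat.div_le_self _ _).trans (Nat.sub_le _ _)
  have e := an_log h1 h2 hI hp hC r k hx
  have hM : Real.log (N (2 * k * (r + c) + c)) ≤ Real.log (N n) := by
    apply Real.log_le_log (by exact_mod_cast h1 _)
    exact_mod_cast hN hk1
  have hlk : Real.log ((k : ℝ) + 1) ≤ Real.log ((n : ℝ) + 1) := by
    apply Real.log_le_log (by positivity)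
    have : (k : ℝ) ≤ n := by exact_mod_cast hkn
    linarith
  have hl0 : 0 ≤ Real.log ((n : ℝ) + 1) := by
    apply Real.log_nonneg
    have : (0 : ℝ) ≤ n := Nat.cast_nonneg n
    linarith
  have hk1R : ((2 * k * (r + c) + c : ℕ) : ℝ) ≤ n := by exact_mod_cast hk1
  have hk2R : (n : ℝ) < ((2 * k * (r + c) + c : ℕ) : ℝ) + 2 * (r + c) := by exact_mod_cast hk2
  have hrc : (1 : ℝ) ≤ (r : ℝ) + c := by
    have h3 : (1 : ℝ) ≤ r := by exact_mod_cast hr
    have h4 : (0 : ℝ) ≤ c := Nat.cast_nonneg c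
    linarith
  have hc0 : (0 : ℝ) ≤ c := Nat.cast_nonneg c
  -- comparison of `2 k` and `n / (r + c)`
  have hdiff : |(n : ℝ) / (r + c) - 2 * k| ≤ 2 + c := by
    have h3 : (n : ℝ) / (r + c) - 2 * k = (n - 2 * k * (r + c)) / (r + c) := by
      field_simp
    rw [h3, abs_le]
    push_cast at hk1R hk2R
    constructor
    · rw [le_div_iff₀ (by linarith)]
      nlinarith
    · rw [div_le_iff₀ (by linarith)]
      nlinarith
  have hAk : (n : ℝ) / (r + c) * A - (2 + c) * |A| ≤ 2 * k * A := by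
    have h3 : ((n : ℝ) / (r + c) - 2 * k) * A ≤ (2 + c) * |A| := by
      refine (le_abs_self _).trans ?_
      rw [abs_mul]
      exact mul_le_mul_of_nonneg_right hdiff (abs_nonneg _)
    linarith
  have hx1 : (((2 * k * (r + c) + c : ℕ) : ℝ) + 1) * x ≤ (n + 1) * x :=
    mul_le_mul_of_nonneg_right (by linarith) hx.le
  have hh1 : (h r : ℝ) * Real.log (k + 1) ≤ h r * Real.log (n + 1) :=
    mul_le_mul_of_nonneg_left hlk (Nat.cast_nonneg _)
  have hlx : -(2 * q * |Real.log x|) ≤ 2 * q * Real.log x := by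
    have h3 := neg_abs_le (Real.log x)
    have h4 : (0 : ℝ) ≤ 2 * q := by positivity
    nlinarith
  have e2 : 2 * k * A - h r * Real.log (n + 1) - 2 * Real.log C - (n + 1) * x -
      2 * q * |Real.log x| ≤ Real.log (N n) := by
    have h3 : 2 * (k : ℝ) * A = 2 * k * Real.log (h r) - 4 * k * Real.log p -
        2 * k * Real.log C + q * (2 * k) * Real.log x := by
      rw [hA]
      ring
    linarith
  have e3 : (n : ℝ) * (A / (r + c) - x) = (n : ℝ) / (r + c) * A - n * x := by
    field_simp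
  rw [e3]
  have hK : 0 ≤ (2 + c) * |A| + 2 * Real.log C + 2 * q * |Real.log x| + x := by positivity
  have e4 : ((2 + c) * |A| + h r + 2 * Real.log C + 2 * q * |Real.log x| + x) *
      (1 + Real.log (n + 1)) ≥ (2 + c) * |A| + 2 * Real.log C + 2 * q * |Real.log x| + x +
        h r * Real.log (n + 1) := by
    have h5 : (0 : ℝ) ≤ h r := Nat.cast_nonneg _
    nlinarith [mul_nonneg hK hl0]
  linarith

theorem an_tend : Tendsto (fun n : ℕ => (1 + Real.log ((n : ℝ) + 1)) / n) atTop (nhds 0) := by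
  have h1 : Tendsto (fun n : ℕ => ((n : ℝ) + 1)) atTop atTop :=
    tendsto_atTop_add_const_right _ _ tendsto_natCast_atTop_atTop
  have h2 : Tendsto (fun x : ℝ => Real.log x / x) atTop (nhds 0) := by
    have := Real.isLittleO_log_id_atTop.tendsto_div_nhds_zero
    simpa using this
  have h3 := h2.comp h1
  have h4 : Tendsto (fun n : ℕ => (1 : ℝ) / n) atTop (nhds 0) := tendsto_one_div_atTop_nhds_zero_nat
  have h5 : Tendsto (fun n : ℕ => (1 : ℝ) / n + (Real.log ((n : ℝ) + 1) / ((n : ℝ) + 1)) *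
      (1 + 1 / n)) atTop (nhds (0 + 0 * (1 + 0))) :=
    h4.add (h3.mul (tendsto_const_nhds.add h4))
  have h6 : (0 : ℝ) + 0 * (1 + 0) = 0 := by ring
  rw [h6] at h5
  refine h5.congr' ?_
  filter_upwards [eventually_gt_atTop 0] with n hn
  have : (0 : ℝ) < n := by exact_mod_cast hn
  field_simp

theorem anal_main {h N : ℕ → ℕ} {D p C q c : ℕ} (hq : 0 < q) (hh : Monotone h) (hN : Monotone N)
    (h1 : ∀ n, 1 ≤ N n) (h2 : ∀ n, N n ≤ h n) (h3 : ∀ n, h n ≤ D ^ n)
    (hI : ∀ r k : ℕ, h r ^ (2 * k) ≤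
      (k + 1) ^ (h r) * (p ^ (4 * k) * (C ^ (2 * k + 2) *
        (2 * k * (r + c) + c + 1).choose (q * (2 * k + 2)) * N (2 * k * (r + c) + c)))) :
    ∃ ℓ : ℝ, Tendsto (fun n : ℕ => Real.log (h n) / n) atTop (nhds ℓ) ∧
      Tendsto (fun n : ℕ => Real.log (N n) / n) atTop (nhds ℓ) := by
  have hh1 : ∀ n, 1 ≤ h n := fun n => (h1 n).trans (h2 n)
  have hp : 1 ≤ p := by
    rcases Nat.eq_zero_or_pos p with h0 | h0
    · have e := hI 0 1
      rw [h0] at e
      norm_num at e
      have := hh1 0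
      omega
    · exact h0
  have hC : 1 ≤ C := by
    rcases Nat.eq_zero_or_pos C with h0 | h0
    · have e := hI 0 1
      rw [h0] at e
      norm_num at e
      have := hh1 0
      omega
    · exact h0
  have hD : 1 ≤ D := by
    have e := h3 1
    rw [pow_one] at e
    exact (hh1 1).trans e
  have hlD : 0 ≤ Real.log D := Real.log_natCast_nonneg D
  have hlh : ∀ n, 0 ≤ Real.log (h n) := fun n => Real.log_natCast_nonneg _
  have hLD : ∀ n : ℕ, Real.log (h n) ≤ n * Real.log D := by
    intro n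
    have e := Real.log_le_log (by exact_mod_cast hh1 n) (show (h n : ℝ) ≤ (D : ℝ) ^ n by
      exact_mod_cast h3 n)
    rwa [Real.log_pow] at e
  set u : ℕ → ℝ := fun n => Real.log (h n) / n with hu
  have hu0 : ∀ n, 0 ≤ u n := fun n => div_nonneg (hlh n) (Nat.cast_nonneg n)
  have huD : ∀ n, u n ≤ Real.log D := by
    intro n
    rcases Nat.eq_zero_or_pos n with h0 | h0
    · rw [hu, h0]
      simp only [Nat.cast_zero, div_zero]
      exact hlD
    · have hn : (0 : ℝ) < n := by exact_mod_cast h0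
      rw [hu]
      simp only
      rw [div_le_iff₀ hn, mul_comm]
      exact hLD n
  have hb1 : IsBoundedUnder (· ≤ ·) atTop u := isBoundedUnder_of ⟨Real.log D, huD⟩
  have hb2 : IsBoundedUnder (· ≥ ·) atTop u := isBoundedUnder_of ⟨0, hu0⟩
  set s := limsup u atTop with hs
  have hup : ∀ a, s < a → ∀ᶠ n in atTop, u n < a := fun a ha =>
    eventually_lt_of_limsup_lt ha hb1
  have hfr : ∀ a, a < s → ∃ᶠ n in atTop, a < u n := fun a ha =>
    frequently_lt_of_lt_limsup hb2.isCoboundedUnder_le ha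
  have hlow : ∀ a, a < s → ∀ᶠ n in atTop, a < Real.log (N n) / (n : ℝ) := by
    intro a ha
    set ε := (s - a) / 5 with hε
    have hε0 : 0 < ε := by
      rw [hε]
      linarith
    set κ := 2 * Real.log p + Real.log C - q * Real.log ε with hκ
    -- choose r
    have hr1 : Tendsto (fun r : ℕ => (c * Real.log D + |κ|) / ((r : ℝ) + c)) atTop (nhds 0) :=
      Tendsto.div_atTop tendsto_const_nhds
        (tendsto_atTop_add_const_right _ _ tendsto_natCast_atTop_atTop)
    have hr2 : ∀ᶠ r : ℕ in atTop, (c * Real.log D + |κ|) / ((r : ℝ) + c) < ε :=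
      hr1.eventually (gt_mem_nhds hε0)
    obtain ⟨r, hra, hrb, hrc⟩ := ((hfr (s - ε) (by linarith)).and_eventually
      (hr2.and (eventually_ge_atTop 1))).exists
    have hrpos : (0 : ℝ) < r := by exact_mod_cast hrc
    have hc0 : (0 : ℝ) ≤ c := Nat.cast_nonneg c
    have hrcpos : (0 : ℝ) < (r : ℝ) + c := by linarith
    have hA : s - 2 * ε < (Real.log (h r) - κ) / (r + c) := by
      have e1 : u r - (Real.log (h r) - κ) / (r + c) ≤ (c * Real.log D + |κ|) / ((r : ℝ) + c) := by
        have e2 : u r - (Real.log (h r) - κ) / (r + c) = (c * u r + κ) / ((r : ℝ) + c) := by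
          rw [hu]
          simp only
          field_simp
          ring
        rw [e2]
        apply div_le_div_of_nonneg_right _ hrcpos.le
        have e3 := mul_le_mul_of_nonneg_left (huD r) hc0
        have e4 := le_abs_self κ
        linarith
      linarith
    obtain ⟨K, hK0, hK⟩ := an_low hN h1 h2 hI hp hC r hrc hε0
    have ht : Tendsto (fun n : ℕ => K * ((1 + Real.log ((n : ℝ) + 1)) / n)) atTop
        (nhds (K * 0)) := an_tend.const_mul K
    rw [mul_zero] at ht
    have ht2 := ht.eventually (gt_mem_nhds hε0)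
    filter_upwards [ht2, eventually_ge_atTop c, eventually_gt_atTop 0] with n hn1 hn2 hn3
    have hnpos : (0 : ℝ) < n := by exact_mod_cast hn3
    have e := hK n hn2
    rw [← hκ] at e
    rw [lt_div_iff₀ hnpos]
    have hn1' : K * (1 + Real.log ((n : ℝ) + 1)) < ε * n := by
      have e5 : K * ((1 + Real.log ((n : ℝ) + 1)) / n) * n = K * (1 + Real.log ((n : ℝ) + 1)) := by
        field_simp
      rw [← e5]
      exact mul_lt_mul_of_pos_right hn1 hnpos
    have e6 : (n : ℝ) * (s - 3 * ε) < n * ((Real.log (h r) - κ) / (r + c) - ε) :=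
      mul_lt_mul_of_pos_left (by linarith) hnpos
    have e7 : a = s - 5 * ε := by
      rw [hε]
      ring
    rw [e7]
    nlinarith
  have hle : ∀ n : ℕ, Real.log (N n) / (n : ℝ) ≤ u n := by
    intro n
    rw [hu]
    simp only
    apply div_le_div_of_nonneg_right _ (Nat.cast_nonneg n)
    exact Real.log_le_log (by exact_mod_cast h1 n) (by exact_mod_cast h2 n)
  refine ⟨s, ?_, ?_⟩
  · refine tendsto_order.2 ⟨fun a ha => ?_, fun a ha => hup a ha⟩
    filter_upwards [hlow a ha] with n hn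
    exact hn.trans_le (hle n)
  · refine tendsto_order.2 ⟨fun a ha => hlow a ha, fun a ha => ?_⟩
    filter_upwards [hup a ha] with n hn
    exact (hle n).trans_lt hn

theorem anal_half {g N : ℕ → ℕ} {p C q c : ℕ} {ℓ ℓ' : ℝ} (h1 : ∀ n, 1 ≤ N n) (h0 : ∀ n, 1 ≤ g n)
    (hI : ∀ r : ℕ, g r ≤ p ^ 2 * (C ^ 4 *
        (2 * (r + c) + c + 1).choose (q * 4) * N (2 * (r + c) + c)))
    (hg : Tendsto (fun n : ℕ => Real.log (g n) / n) atTop (nhds ℓ'))
    (hN : Tendsto (fun n : ℕ => Real.log (N n) / n) atTop (nhds ℓ)) : ℓ' ≤ 2 * ℓ := by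
  set m : ℕ → ℕ := fun r => 2 * (r + c) + c with hm
  have hmt : Tendsto m atTop atTop := by
    apply tendsto_atTop_mono (f := fun r => r) _ tendsto_id
    intro r
    rw [hm]
    simp only
    omega
  have hq : ∀ r : ℕ, Real.log (g r) ≤ 2 * Real.log p + 4 * Real.log C +
      q * 4 * Real.log ((m r : ℝ) + 1) + Real.log (N (m r)) := by
    intro r
    have e := hI r
    have hne : 0 < p ^ 2 * (C ^ 4 * (m r + 1).choose (q * 4) * N (m r)) :=
      lt_of_lt_of_le (h0 r) e
    have hp : p ≠ 0 := by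
      rintro rfl
      simp at hne
    have hC : C ≠ 0 := by
      rintro rfl
      simp at hne
    have hc : (m r + 1).choose (q * 4) ≠ 0 := by
      intro h
      rw [h] at hne
      simp at hne
    have hpR : (0 : ℝ) < p := by exact_mod_cast Nat.pos_of_ne_zero hp
    have hCR : (0 : ℝ) < C := by exact_mod_cast Nat.pos_of_ne_zero hC
    have hNR : (0 : ℝ) < N (m r) := by exact_mod_cast h1 _
    have hcR : (0 : ℝ) < ((m r + 1).choose (q * 4) : ℝ) := by exact_mod_cast Nat.pos_of_ne_zero hc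
    have hgR : (0 : ℝ) < g r := by exact_mod_cast h0 r
    have e' : (g r : ℝ) ≤ (p : ℝ) ^ 2 * ((C : ℝ) ^ 4 * ((m r + 1).choose (q * 4) : ℝ) *
        (N (m r) : ℝ)) := by exact_mod_cast e
    have e2 := Real.log_le_log hgR e'
    rw [Real.log_mul (by positivity) (by positivity), Real.log_mul (by positivity) (by positivity),
      Real.log_mul (by positivity) (by positivity), Real.log_pow, Real.log_pow] at e2
    have e3 : Real.log ((m r + 1).choose (q * 4)) ≤ q * 4 * Real.log ((m r : ℝ) + 1) := by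
      have e4 : ((m r + 1).choose (q * 4) : ℝ) ≤ ((m r : ℝ) + 1) ^ (q * 4) := by
        exact_mod_cast Nat.choose_le_pow (m r + 1) (q * 4)
      have e5 := Real.log_le_log hcR e4
      rw [Real.log_pow] at e5
      push_cast at e5
      exact e5
    push_cast at e2
    linarith
  have t1 : Tendsto (fun r : ℕ => (1 : ℝ) / r) atTop (nhds 0) := tendsto_one_div_atTop_nhds_zero_nat
  have t2 : Tendsto (fun r : ℕ => (m r : ℝ) / r) atTop (nhds 2) := by
    have e : Tendsto (fun r : ℕ => (2 : ℝ) + (3 * c) * (1 / (r : ℝ))) atTop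
        (nhds (2 + (3 * c) * 0)) := tendsto_const_nhds.add (t1.const_mul _)
    rw [mul_zero, add_zero] at e
    refine e.congr' ?_
    filter_upwards [eventually_gt_atTop 0] with r hr
    have : (0 : ℝ) < r := by exact_mod_cast hr
    rw [hm]
    push_cast
    field_simp
    ring
  have t3 := an_tend.comp hmt
  have t4 := hN.comp hmt
  have t5 : Tendsto (fun r : ℕ => (2 * Real.log p + 4 * Real.log C) * (1 / (r : ℝ)) +
      q * 4 * (((1 + Real.log ((m r : ℝ) + 1)) / (m r : ℝ)) * ((m r : ℝ) / r)) +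
      (Real.log (N (m r)) / (m r : ℝ)) * ((m r : ℝ) / r)) atTop
      (nhds ((2 * Real.log p + 4 * Real.log C) * 0 + q * 4 * (0 * 2) + ℓ * 2)) :=
    ((t1.const_mul _).add ((t3.mul t2).const_mul _)).add (t4.mul t2)
  have e0 : (2 * Real.log p + 4 * Real.log C) * 0 + q * 4 * (0 * 2) + ℓ * 2 = 2 * ℓ := by ring
  rw [e0] at t5
  refine le_of_tendsto_of_tendsto hg t5 ?_
  filter_upwards [eventually_gt_atTop 0] with r hr
  have hrpos : (0 : ℝ) < r := by exact_mod_cast hr
  have hmpos : (0 : ℝ) < (m r : ℝ) := by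
    have : 0 < m r := by
      rw [hm]
      simp only
      omega
    exact_mod_cast this
  have e1 := hq r
  have e2 : (1 + Real.log ((m r : ℝ) + 1)) / (m r : ℝ) * ((m r : ℝ) / r) =
      (1 + Real.log ((m r : ℝ) + 1)) / r := by
    field_simp
  have e3 : Real.log (N (m r)) / (m r : ℝ) * ((m r : ℝ) / r) = Real.log (N (m r)) / r := by
    field_simp
  rw [e2, e3, div_le_iff₀ hrpos]
  have e4 : ((2 * Real.log p + 4 * Real.log C) * (1 / (r : ℝ)) +
      q * 4 * ((1 + Real.log ((m r : ℝ) + 1)) / r) + Real.log (N (m r)) / r) * r =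
      (2 * Real.log p + 4 * Real.log C) + q * 4 * (1 + Real.log ((m r : ℝ) + 1)) +
        Real.log (N (m r)) := by
    field_simp
  rw [e4]
  have : (0 : ℝ) ≤ q * 4 := by positivity
  linarith

end Pool.JohD
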