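import Pool.Agent.JohD.Pt
import Pool.Agent.Hhelper67.Johnson.Balls

/-!
# MODULE JohD/Ball (paths and balls; easy)

`ball S r` is the set of products of at most `r` elements of `S ∪ S⁻¹` (`Pool.Agent.Hhelper67.Johnson.ball`;
there: `ball_mul`, `ball_inv`, `ball_mono`, `one_mem_ball`, `ball_finite`).

* `exists_path_step`: apply `Sys.exists_step` to the finite set `S ∪ S⁻¹ ∪ {1}`; for `w = l.prod`,
  `l.length ≤ n`, the path is `p i = (l.take i).prod` (for `i ≥ l.length` it is constant).
* `exists_ball`: `S` generates, so every `x` is in some ball (`Subgroup.closure_induction`), and a finite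
  set is in one ball (`ball_mono`).
* `ball_log_sub`: `ball S (m + n) ⊆ ball S m * ball S n` (split the list), so
  `card (ball (m+n)) ≤ card (ball m) * card (ball n)`.
* `ball_lim`: Fekete's lemma (`Subadditive.tendsto_lim` in Mathlib) for `log (card (ball S n))`.
-/

namespace Pool.JohD

open Pool.Agent.Hhelper67.Johnson Filter

variable {G : Type} [Group G]

theorem exists_path_step {Y : Type} [MulAction G Y] {X : Sys G Y} (b : X.Base) (S : Finset G) :
    ∃ B : ℕ, ∀ (n : ℕ) (w : G), w ∈ ball S n → ∃ p : ℕ → G, p 0 = 1 ∧ p n = w ∧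
      ∀ y : Y, ∀ i < n, Sys.dd b y (p i) (p (i + 1)) ≤ B := by
  sorry

theorem exists_ball (S : Finset G) (hS : Subgroup.closure (S : Set G) = ⊤) (A : Finset G) :
    ∃ r : ℕ, ∀ x ∈ A, x ∈ ball S r := by
  sorry

theorem ball_log_sub (S : Finset G) (m n : ℕ) :
    (ball S (m + n)).ncard ≤ (ball S m).ncard * (ball S n).ncard := by
  sorry

theorem ball_lim (S : Finset G) :
    ∃ ℓ : ℝ, 0 ≤ ℓ ∧ Tendsto (fun n : ℕ => Real.log ((ball S n).ncard : ℝ) / n) atTop (nhds ℓ) := by
  sorry

end Pool.JohD
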