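import Pool.Agent.JohD.Pt

/-!
# MODULE JohD/Chain (barrier curves of a chain; abstract part)

Sequences `h, t : ℕ → G`, `y : ℕ → Y`. `Wd h t j = (h 0 * t 0) * ... * (h (j-1) * t (j-1))`.
Barrier curves `z j = (Wd h t j * h j) • y j`. Hypotheses for a length `J`: `t j` is a twist of size `M`
about `y j` (`j < J`), `h (j+1)` is good between `y j` and `y (j+1)`, and `dd (y 0) (h 0)⁻¹ 1 ≤ K`.
`κ₁ := 2 κ + B₀`, `K₁ := κ₁ + K + κ`. The hypothesis `hM` implies `2 L₀ + 2 K₁ + 2 κ ≤ M` and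
`K₁ + K + 3 κ < M`.

Proof. Put `u j = Wd h t j * h j` (so `z j = u j • y j` and `u (j+1) = u j * t j * h (j+1)`), and
`v j = (u j)⁻¹ * Wd h t J`, so `v j = t j * (h (j+1) * v (j+1))` for `j + 1 < J` and `v (J-1) = t (J-1)`.

(L_j) `dd b (y j) (u j)⁻¹ 1 ≤ K₁` for `j < J`. For `j = 0` this is the hypothesis. Step: write `y = y j`,
`y' = y (j+1)`, `h = h (j+1)`, `t = t j`, `z' = h • y'`. `(u (j+1))⁻¹ = h⁻¹ * (t⁻¹ * (u j)⁻¹)`.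
By `Tw.inv`, `Tw.pt_mul` and `Tw.big`: `M ≤ d y (pt y 1) (pt y (t⁻¹ * (u j)⁻¹)) + d y (pt y 1) (pt y (u j)⁻¹) + κ`,
so `d y (pt y 1) (pt y (t⁻¹ (u j)⁻¹)) ≥ M - K₁ - κ`. With `d y z' (pt y 1) ≤ K` (good), the triangle
inequality gives `d y z' (pt y (t⁻¹ (u j)⁻¹)) ≥ M - K₁ - 2 κ - K > κ`. `beh_pt` (for `y, z'` and
`g = t⁻¹ (u j)⁻¹`) gives `d z' y (pt z' (t⁻¹ (u j)⁻¹)) ≤ κ₁`. Translate by `h⁻¹`:
(**) `d y' (h⁻¹ • y) (pt y' (u (j+1))⁻¹) ≤ κ₁`. With `d y' (h⁻¹ • y) (pt y' 1) ≤ K` (good):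
`dd b y' (u (j+1))⁻¹ 1 ≤ κ₁ + K + κ = K₁`.

(R_j) Let `w j = h (j+1) * v (j+1)` for `j + 1 < J` and `w (J-1) = 1`, so `v j = t j * w j`. Claim:
`dd b (y j) (w j) 1 ≤ K₁`. For `j = J-1` it is `dd_self`. Step from `j+1` to `j`: as above,
`d y' (pt y' 1) (pt y' (v (j+1))) ≥ M - K₁ - κ` (twist `t (j+1)` applied to `pt y' (w (j+1))`), and
`d y' (h⁻¹ • y) (pt y' 1) ≤ K`, so `d y' (h⁻¹ • y) (pt y' (v (j+1))) > κ`; `cr y' (h⁻¹ • y)`; `beh_pt`: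
`d (h⁻¹ • y) y' (pt (h⁻¹ • y) (v (j+1))) ≤ κ₁`. Translate by `h`: (***) `d y (h • y') (pt y (w j)) ≤ κ₁`.
With `d y (h • y') (pt y 1) ≤ K`: `dd b y (w j) 1 ≤ K₁`.

`chain_dd`: translate by `(u j)⁻¹`: `dd b (z j) 1 (Wd h t J) = dd b (y j) (u j)⁻¹ (v j)
= d y (pt y (u j)⁻¹) (t • pt y (w j)) ≥ M - d y (pt y (u j)⁻¹) (pt y (w j)) - κ ≥ M - (2 K₁ + κ) - κ ≥ 2 L₀`.

`chain_cr`: `z j = u j • y j`, `z (j+1) = (u j * t j) • h (j+1) • y (j+1)` and `t j • y j = y j`, so both are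
`(u j * t j)`-translates of `y j` and `h (j+1) • y (j+1)`, which cross.

`chain_right`: translate by `(u j)⁻¹`, `z (j+1)` becomes `t j • h (j+1) • y (j+1)`, `z j` becomes
`y j = t j • y j` and `Wd h t J` becomes `t j * w j`; now translate by `(t j)⁻¹` and use (***).

`chain_left`: translate by `(u (j+1))⁻¹`: `z (j+1)` becomes `y (j+1)`, `z j` becomes
`h⁻¹ t⁻¹ • y j = h⁻¹ • y j`, and `1` becomes `(u (j+1))⁻¹`: this is (**).
-/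

set_option linter.all false

namespace Pool.JohD

namespace Sys

variable {G Y : Type} [Group G] [MulAction G Y] {X : Sys G Y} (b : X.Base)

/-- The word `(h 0 * t 0) * ... * (h (j-1) * t (j-1))`. -/
def Wd (h t : ℕ → G) : ℕ → G
  | 0 => 1
  | j + 1 => Wd h t j * (h j * t j)

variable {B₀ K L₀ M J : ℕ} {h t : ℕ → G} {y : ℕ → Y}


/-! ### auxiliary lemmas -/

theorem Wd_succ (h t : ℕ → G) (j : ℕ) : Wd h t (j + 1) = Wd h t j * (h j * t j) := rfl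

theorem Wd_u_succ (h t : ℕ → G) (j : ℕ) :
    Wd h t (j + 1) * h (j + 1) = (Wd h t j * h j) * t j * h (j + 1) := by
  rw [Wd_succ]
  simp only [mul_assoc]

theorem chain_push {K₁ : ℕ}
    (hB₀ : ∀ y, ∀ e ∈ b.L, ∀ e' ∈ b.L, X.cr y e → X.cr y e' → X.d y e e' ≤ B₀)
    {y z : Y} {tt g : G} (htw : X.Tw M y tt) (hM : K₁ + K + 3 * X.κ < M) (hyz : X.cr y z)
    (hz : X.d y z (pt b y 1) ≤ K) (hg : dd b y g 1 ≤ K₁) :
    X.d z y (pt b z (tt * g)) ≤ 2 * X.κ + B₀ := by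
  apply beh_pt b hB₀ hyz
  have h1 := htw.big (pt b y 1) (pt b y g) (pt_cr b y 1) (pt_cr b y g)
  rw [← htw.pt_mul b g] at h1
  have h2 := X.d_tri y (pt b y 1) z (pt b y (tt * g)) (pt_cr b y 1) hyz (pt_cr b y _)
  have h3 : X.d y (pt b y 1) (pt b y g) ≤ K₁ := by
    rw [X.d_symm]
    exact hg
  have h4 : X.d y (pt b y 1) z ≤ K := by
    rw [X.d_symm]
    exact hz
  omega

theorem chain_smul_pt_inv (g : G) (z : Y) (k : G) : pt b (g⁻¹ • z) (g⁻¹ * k) = g⁻¹ • pt b z k :=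
  pt_smul b g⁻¹ z k

/-- (**) from (L_j) -/
theorem chain_stepL {K₁ : ℕ}
    (hB₀ : ∀ y, ∀ e ∈ b.L, ∀ e' ∈ b.L, X.cr y e → X.cr y e' → X.d y e e' ≤ B₀)
    (hM : K₁ + K + 3 * X.κ < M)
    (htw : ∀ j < J, X.Tw M (y j) (t j))
    (hgd : ∀ j, j + 1 < J → Gd b K (y j) (h (j + 1)) (y (j + 1))) {j : ℕ} (hj : j + 1 < J)
    (hL : dd b (y j) (Wd h t j * h j)⁻¹ 1 ≤ K₁) :
    X.d (y (j + 1)) ((h (j + 1))⁻¹ • y j)
      (pt b (y (j + 1)) (Wd h t (j + 1) * h (j + 1))⁻¹) ≤ 2 * X.κ + B₀ := by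
  have hg := hgd j hj
  have h1 := chain_push b hB₀ (htw j (by omega)).inv hM hg.cr hg.left hL
  have h2 := X.d_smul (h (j + 1))⁻¹ (h (j + 1) • y (j + 1)) (y j)
    (pt b (h (j + 1) • y (j + 1)) ((t j)⁻¹ * (Wd h t j * h j)⁻¹))
  rw [← pt_smul, inv_smul_smul] at h2
  have h3 : (h (j + 1))⁻¹ * ((t j)⁻¹ * (Wd h t j * h j)⁻¹) =
      (Wd h t (j + 1) * h (j + 1))⁻¹ := by
    rw [Wd_u_succ]
    group
  rw [h3] at h2
  rw [h2]
  exact h1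

/-- (L_j) -/
theorem chain_claimL {K₁ : ℕ}
    (hB₀ : ∀ y, ∀ e ∈ b.L, ∀ e' ∈ b.L, X.cr y e → X.cr y e' → X.d y e e' ≤ B₀)
    (hM : K₁ + K + 3 * X.κ < M) (hK₁ : 3 * X.κ + B₀ + K ≤ K₁)
    (htw : ∀ j < J, X.Tw M (y j) (t j))
    (hgd : ∀ j, j + 1 < J → Gd b K (y j) (h (j + 1)) (y (j + 1)))
    (hst : dd b (y 0) (h 0)⁻¹ 1 ≤ K) : ∀ j : ℕ, j < J →
    dd b (y j) (Wd h t j * h j)⁻¹ 1 ≤ K₁ := by
  intro j
  induction j with
  | zero =>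
    intro _
    have h1 : Wd h t 0 * h 0 = h 0 := one_mul _
    rw [h1]
    omega
  | succ j ih =>
    intro hj
    have h1 := chain_stepL b hB₀ hM htw hgd hj (ih (by omega))
    have hg := hgd j hj
    have hcr : X.cr (y (j + 1)) ((h (j + 1))⁻¹ • y j) := by
      have h2 := (X.cr_smul (h (j + 1))⁻¹ _ _).mpr hg.cr
      rw [inv_smul_smul] at h2
      exact X.cr_symm h2
    have h2 := X.d_tri (y (j + 1)) (pt b (y (j + 1)) (Wd h t (j + 1) * h (j + 1))⁻¹)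
      ((h (j + 1))⁻¹ • y j) (pt b (y (j + 1)) 1) (pt_cr b _ _) hcr (pt_cr b _ _)
    have h3 := hg.right
    rw [X.d_symm] at h1
    rw [dd]
    omega

/-- the element `w j` -/
def chain_w (h t : ℕ → G) (J j : ℕ) : G := (t j)⁻¹ * ((Wd h t j * h j)⁻¹ * Wd h t J)

theorem chain_w_last (h t : ℕ → G) {J j : ℕ} (hj : j + 1 = J) : chain_w h t J j = 1 := by
  subst hj
  rw [chain_w, Wd_succ]
  group

theorem chain_w_step (h t : ℕ → G) (J j : ℕ) :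
    chain_w h t J j = h (j + 1) * (t (j + 1) * chain_w h t J (j + 1)) := by
  rw [chain_w, chain_w, Wd_u_succ]
  group

/-- (***) from (R_(j+1)) -/
theorem chain_stepR {K₁ : ℕ}
    (hB₀ : ∀ y, ∀ e ∈ b.L, ∀ e' ∈ b.L, X.cr y e → X.cr y e' → X.d y e e' ≤ B₀)
    (hM : K₁ + K + 3 * X.κ < M)
    (htw : ∀ j < J, X.Tw M (y j) (t j))
    (hgd : ∀ j, j + 1 < J → Gd b K (y j) (h (j + 1)) (y (j + 1))) {j : ℕ} (hj : j + 1 < J)
    (hR : dd b (y (j + 1)) (chain_w h t J (j + 1)) 1 ≤ K₁) :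
    X.d (y j) (h (j + 1) • y (j + 1)) (pt b (y j) (chain_w h t J j)) ≤ 2 * X.κ + B₀ := by
  have hg := hgd j hj
  have hcr : X.cr (y (j + 1)) ((h (j + 1))⁻¹ • y j) := by
    have h2 := (X.cr_smul (h (j + 1))⁻¹ _ _).mpr hg.cr
    rw [inv_smul_smul] at h2
    exact X.cr_symm h2
  have h1 := chain_push b hB₀ (htw (j + 1) hj) hM hcr hg.right hR
  have h2 := X.d_smul (h (j + 1)) ((h (j + 1))⁻¹ • y j) (y (j + 1))
    (pt b ((h (j + 1))⁻¹ • y j) (t (j + 1) * chain_w h t J (j + 1)))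
  rw [← pt_smul, smul_inv_smul, ← chain_w_step] at h2
  rw [h2]
  exact h1

theorem chain_claimR_aux {K₁ : ℕ}
    (hB₀ : ∀ y, ∀ e ∈ b.L, ∀ e' ∈ b.L, X.cr y e → X.cr y e' → X.d y e e' ≤ B₀)
    (hM : K₁ + K + 3 * X.κ < M) (hK₁ : 3 * X.κ + B₀ + K ≤ K₁)
    (htw : ∀ j < J, X.Tw M (y j) (t j))
    (hgd : ∀ j, j + 1 < J → Gd b K (y j) (h (j + 1)) (y (j + 1))) : ∀ i j : ℕ,
    j + i + 1 = J → dd b (y j) (chain_w h t J j) 1 ≤ K₁ := by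
  intro i
  induction i with
  | zero =>
    intro j hj
    rw [chain_w_last h t (by omega)]
    have := dd_self b (y j) 1
    omega
  | succ i ih =>
    intro j hj
    have hj1 : j + 1 < J := by omega
    have h1 := chain_stepR b hB₀ hM htw hgd hj1 (ih (j + 1) (by omega))
    have hg := hgd j hj1
    have h2 := X.d_tri (y j) (pt b (y j) (chain_w h t J j)) (h (j + 1) • y (j + 1)) (pt b (y j) 1)
      (pt_cr b _ _) hg.cr (pt_cr b _ _)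
    have h3 := hg.left
    rw [X.d_symm] at h1
    rw [dd]
    omega

theorem chain_claimR {K₁ : ℕ}
    (hB₀ : ∀ y, ∀ e ∈ b.L, ∀ e' ∈ b.L, X.cr y e → X.cr y e' → X.d y e e' ≤ B₀)
    (hM : K₁ + K + 3 * X.κ < M) (hK₁ : 3 * X.κ + B₀ + K ≤ K₁)
    (htw : ∀ j < J, X.Tw M (y j) (t j))
    (hgd : ∀ j, j + 1 < J → Gd b K (y j) (h (j + 1)) (y (j + 1))) {j : ℕ} (hj : j < J) :
    dd b (y j) (chain_w h t J j) 1 ≤ K₁ :=
  chain_claimR_aux b hB₀ hM hK₁ htw hgd (J - 1 - j) j (by omega)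

theorem Wd_eq_chain_w (h t : ℕ → G) (J j : ℕ) :
    Wd h t J = (Wd h t j * h j) * (t j * chain_w h t J j) := by
  rw [chain_w]
  group

/-- both barrier curves as translates by `u j * t j` -/
theorem chain_z_eq {j : ℕ} (htw : X.Tw M (y j) (t j)) :
    (Wd h t j * h j) • y j = ((Wd h t j * h j) * t j) • y j := by
  rw [mul_smul _ (t j), htw.fix]

theorem chain_z_succ (h t : ℕ → G) (y : ℕ → Y) (j : ℕ) :
    (Wd h t (j + 1) * h (j + 1)) • y (j + 1) =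
      ((Wd h t j * h j) * t j) • (h (j + 1) • y (j + 1)) := by
  rw [Wd_u_succ, mul_smul]

theorem chain_dd
    (hB₀ : ∀ y, ∀ e ∈ b.L, ∀ e' ∈ b.L, X.cr y e → X.cr y e' → X.d y e e' ≤ B₀)
    (hM : 2 * L₀ + 2 * K + 2 * B₀ + 10 * X.κ + 1 ≤ M)
    (htw : ∀ j < J, X.Tw M (y j) (t j))
    (hgd : ∀ j, j + 1 < J → Gd b K (y j) (h (j + 1)) (y (j + 1)))
    (hst : dd b (y 0) (h 0)⁻¹ 1 ≤ K) {j : ℕ} (hj : j < J) :
    2 * L₀ ≤ dd b ((Wd h t j * h j) • y j) 1 (Wd h t J) := by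
  set K₁ : ℕ := 3 * X.κ + B₀ + K with hK₁
  have hM1 : K₁ + K + 3 * X.κ < M := by omega
  have hL := chain_claimL b hB₀ hM1 le_rfl htw hgd hst j hj
  have hR := chain_claimR b hB₀ hM1 le_rfl htw hgd hj
  have h1 := dd_smul b (Wd h t j * h j) (y j) (Wd h t j * h j)⁻¹ (t j * chain_w h t J j)
  rw [← Wd_eq_chain_w, mul_inv_cancel] at h1
  rw [h1, dd, (htw j hj).pt_mul]
  have h2 := (htw j hj).big (pt b (y j) (Wd h t j * h j)⁻¹) (pt b (y j) (chain_w h t J j))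
    (pt_cr b _ _) (pt_cr b _ _)
  have h3 := dd_tri b (y j) (Wd h t j * h j)⁻¹ 1 (chain_w h t J j)
  rw [dd_symm b (y j) 1] at h3
  have h4 : X.d (y j) (pt b (y j) (Wd h t j * h j)⁻¹) (pt b (y j) (chain_w h t J j)) =
    dd b (y j) (Wd h t j * h j)⁻¹ (chain_w h t J j) := rfl
  rw [h4] at h2
  omega

theorem chain_cr
    (htw : ∀ j < J, X.Tw M (y j) (t j))
    (hgd : ∀ j, j + 1 < J → Gd b K (y j) (h (j + 1)) (y (j + 1))) {j : ℕ} (hj : j + 1 < J) :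
    X.cr ((Wd h t j * h j) • y j) ((Wd h t (j + 1) * h (j + 1)) • y (j + 1)) := by
  rw [chain_z_succ, chain_z_eq (htw j (by omega)), X.cr_smul]
  exact (hgd j hj).cr

theorem chain_right
    (hB₀ : ∀ y, ∀ e ∈ b.L, ∀ e' ∈ b.L, X.cr y e → X.cr y e' → X.d y e e' ≤ B₀)
    (hM : 2 * L₀ + 2 * K + 2 * B₀ + 10 * X.κ + 1 ≤ M)
    (htw : ∀ j < J, X.Tw M (y j) (t j))
    (hgd : ∀ j, j + 1 < J → Gd b K (y j) (h (j + 1)) (y (j + 1)))
    (hst : dd b (y 0) (h 0)⁻¹ 1 ≤ K) {j : ℕ} (hj : j + 1 < J) :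
    X.d ((Wd h t j * h j) • y j) ((Wd h t (j + 1) * h (j + 1)) • y (j + 1))
      (pt b ((Wd h t j * h j) • y j) (Wd h t J)) ≤ 2 * X.κ + B₀ := by
  set K₁ : ℕ := 3 * X.κ + B₀ + K with hK₁
  have hM1 : K₁ + K + 3 * X.κ < M := by omega
  have h1 := chain_stepR b hB₀ hM1 htw hgd hj (chain_claimR b hB₀ hM1 le_rfl htw hgd hj)
  have h2 : Wd h t J = ((Wd h t j * h j) * t j) * chain_w h t J j := by
    rw [mul_assoc, ← Wd_eq_chain_w]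
  rw [chain_z_succ, chain_z_eq (htw j (by omega)), h2, pt_smul, X.d_smul]
  exact h1

theorem chain_left
    (hB₀ : ∀ y, ∀ e ∈ b.L, ∀ e' ∈ b.L, X.cr y e → X.cr y e' → X.d y e e' ≤ B₀)
    (hM : 2 * L₀ + 2 * K + 2 * B₀ + 10 * X.κ + 1 ≤ M)
    (htw : ∀ j < J, X.Tw M (y j) (t j))
    (hgd : ∀ j, j + 1 < J → Gd b K (y j) (h (j + 1)) (y (j + 1)))
    (hst : dd b (y 0) (h 0)⁻¹ 1 ≤ K) {j : ℕ} (hj : j + 1 < J) :
    X.d ((Wd h t (j + 1) * h (j + 1)) • y (j + 1)) ((Wd h t j * h j) • y j)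
      (pt b ((Wd h t (j + 1) * h (j + 1)) • y (j + 1)) 1) ≤ 2 * X.κ + B₀ := by
  set K₁ : ℕ := 3 * X.κ + B₀ + K with hK₁
  have hM1 : K₁ + K + 3 * X.κ < M := by omega
  have h1 := chain_stepL b hB₀ hM1 htw hgd hj (chain_claimL b hB₀ hM1 le_rfl htw hgd hst j (by omega))
  have h2 : (Wd h t j * h j) • y j =
      (Wd h t (j + 1) * h (j + 1)) • ((h (j + 1))⁻¹ • y j) := by
    rw [chain_z_eq (htw j (by omega)), Wd_u_succ, smul_smul, mul_inv_cancel_right]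
  have h3 : (1 : G) = (Wd h t (j + 1) * h (j + 1)) * (Wd h t (j + 1) * h (j + 1))⁻¹ :=
    (mul_inv_cancel _).symm
  have h4 := X.d_smul (Wd h t (j + 1) * h (j + 1)) (y (j + 1)) ((h (j + 1))⁻¹ • y j)
    (pt b (y (j + 1)) (Wd h t (j + 1) * h (j + 1))⁻¹)
  rw [← pt_smul, ← h3, ← h2] at h4
  rw [h4]
  exact h1

end Sys

end Pool.JohD
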