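import Pool.Agent.JohD.Pt

/-!
# MODULE JohD/Index (first indices along a path; abstract part)

A path `p 0, p 1, ..., p n` in `G` with small steps: `dd b y (p i) (p (i+1)) ≤ B` for all curves `y`
and `i < n`. `κ₁ := 2 κ + B₀` is the constant of `beh_pt`. Assume `7 κ + 2 B₀ + B + 1 ≤ L₀`.

`IsIdx b L₀ p y i`: `i` is the first index with `L₀ ≤ dd b y (p 0) (p i)`.

* `exists_idx`: `Nat.find` for the predicate `L₀ ≤ dd b y (p 0) (p i)`, which holds at `i = n`.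

* `idx_lt`: `y` is before `z`: `d y z (pt y (p n)) ≤ κ₁` and `d z y (pt z (p 0)) ≤ κ₁`. Proof. Let `j`
  be the index of `z`. `L₀ ≤ dd b z (p 0) (p j) ≤ d z (pt z (p 0)) y + d z y (pt z (p j)) + κ`, so
  `d z y (pt z (p j)) ≥ L₀ - κ₁ - κ > κ`, and `beh_pt` (for `z, y`) gives `d y z (pt y (p j)) ≤ κ₁`.
  Hence `dd b y (p j) (p n) ≤ κ₁ + κ₁ + κ` and
  `dd b y (p 0) (p j) ≥ dd b y (p 0) (p n) - dd b y (p j) (p n) - κ ≥ 2 L₀ - 2 κ₁ - 2 κ` (*).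
  Suppose `j ≤ i`. If `j < i` then `dd b y (p 0) (p j) < L₀` by minimality of `i`: contradiction with (*)
  as `L₀ ≥ 2 κ₁ + 2 κ`. If `j = i = 0` then `dd b y (p 0) (p 0) ≤ κ < L₀`, contradiction with `IsIdx`.
  If `j = i ≥ 1` then `dd b y (p 0) (p i) ≤ dd b y (p 0) (p (i-1)) + dd b y (p (i-1)) (p i) + κ
  < L₀ + B + κ`, contradiction with (*) as `L₀ ≥ 2 κ₁ + 3 κ + B`.

* `idx_not_cr`: suppose `cr y z` and both have index `i`.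
  Since `2 L₀ ≤ dd b y (p 0) (p n) ≤ d y z (pt y (p 0)) + d y z (pt y (p n)) + κ`, one of the two terms
  is `> κ`.
  Case 1: `κ < d y z (pt y (p 0))`. Then `d z y (pt z (p 0)) ≤ κ₁` (`beh_pt`), so
  `d z y (pt z (p n)) ≥ 2 L₀ - κ₁ - κ > κ`, so `d y z (pt y (p n)) ≤ κ₁` (`beh_pt` for `z, y`).
  So `idx_lt` gives `i < i`, contradiction.
  Case 2: `κ < d y z (pt y (p n))`. Then `d z y (pt z (p n)) ≤ κ₁`, so
  `d z y (pt z (p 0)) ≥ 2 L₀ - κ₁ - κ > κ`, so `d y z (pt y (p 0)) ≤ κ₁`. Now `idx_lt` with the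
  roles of `y` and `z` exchanged gives `i < i`, contradiction.
-/

namespace Pool.JohD

namespace Sys

variable {G Y : Type} [Group G] [MulAction G Y] {X : Sys G Y} (b : X.Base)

/-- `i` is the first index with `L₀ ≤ dd b y (p 0) (p i)`. -/
def IsIdx (L₀ : ℕ) (p : ℕ → G) (y : Y) (i : ℕ) : Prop :=
  L₀ ≤ dd b y (p 0) (p i) ∧ ∀ j < i, dd b y (p 0) (p j) < L₀

theorem exists_idx {L₀ n : ℕ} {p : ℕ → G} {y : Y} (h : 2 * L₀ ≤ dd b y (p 0) (p n)) :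
    ∃ i ≤ n, IsIdx b L₀ p y i := by
  sorry

variable {B₀ B L₀ n : ℕ} {p : ℕ → G}

theorem idx_lt
    (hB₀ : ∀ y, ∀ e ∈ b.L, ∀ e' ∈ b.L, X.cr y e → X.cr y e' → X.d y e e' ≤ B₀)
    (hB : ∀ y : Y, ∀ i < n, dd b y (p i) (p (i + 1)) ≤ B)
    (hL : 7 * X.κ + 2 * B₀ + B + 1 ≤ L₀)
    {y z : Y} {i j : ℕ} (hi : i ≤ n) (hj : j ≤ n) (hcr : X.cr y z)
    (hy : 2 * L₀ ≤ dd b y (p 0) (p n))
    (h1 : X.d y z (pt b y (p n)) ≤ 2 * X.κ + B₀) (h2 : X.d z y (pt b z (p 0)) ≤ 2 * X.κ + B₀)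
    (hyi : IsIdx b L₀ p y i) (hzj : IsIdx b L₀ p z j) : i < j := by
  sorry

theorem idx_not_cr
    (hB₀ : ∀ y, ∀ e ∈ b.L, ∀ e' ∈ b.L, X.cr y e → X.cr y e' → X.d y e e' ≤ B₀)
    (hB : ∀ y : Y, ∀ i < n, dd b y (p i) (p (i + 1)) ≤ B)
    (hL : 7 * X.κ + 2 * B₀ + B + 1 ≤ L₀)
    {y z : Y} {i : ℕ} (hi : i ≤ n)
    (hy : 2 * L₀ ≤ dd b y (p 0) (p n)) (hz : 2 * L₀ ≤ dd b z (p 0) (p n))
    (hyi : IsIdx b L₀ p y i) (hzi : IsIdx b L₀ p z i) : ¬ X.cr y z := by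
  sorry

end Sys

end Pool.JohD
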