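import Pool.Agent.JohD.Pkg
import Pool.Agent.JohD.Chain
import Pool.Agent.JohD.Index

/-!
# MODULE JohD/Block (words of blocks; their barrier curves; abstract part)

`P : Pkg b B₀ L₀`. For `a : ℕ → G` and `σ : ℕ → Bool`,
`word P a σ m = (a 0 * f_{σ 0}) * ... * (a (m-1) * f_{σ (m-1)})`, `f_σ = Pr (P.t σ) P.q`.
The tuple is `Ok` if `a 0 = 1` and `a (i+1)` is good between the last curve of block `i` and the first curve
of block `i+1`.

Translation into the setting of `Chain.lean`: for `j = q * i + r`, `r < q` (`i = j / q`, `r = j % q`):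
`h j = if r = 0 then a i else 1`, `t j = P.t (σ i) r`, `y j = P.y (σ i) r`. Then
`Wd h t (q * i) = word P a σ i` and, for `1 ≤ r ≤ q`, `Wd h t (q * i + r) = word P a σ i * a i * Pr (P.t (σ i)) r`
(induction), hence for all `r < q`: `Wd h t (q i + r) * h (q i + r) = word P a σ i * a i * Pr (P.t (σ i)) r`
(for `r = 0` because `h (q i) = a i`, for `r > 0` because `h = 1`). So the barrier curve
`(Wd h t j * h j) • y j` of `Chain.lean` is `bar P a σ j`.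
Hypotheses of `Chain.lean` for `J = q * m`: `htw` is `P.tw`; `hgd`: if `r + 1 < q` it is `P.gd`, if
`r + 1 = q` it is the condition in `Ok` (for `i + 1 < m`); `hst`: `h 0 = a 0 = 1`, and
`dd b (y 0) 1⁻¹ 1 ≤ κ ≤ K`; `hM` is `P.hM`. `Wd h t (q m) = word P a σ m = p n`, `p 0 = 1`.

`bar_idx`: `exists_idx` (from `chain_dd`) gives for each `j < q m` an index `idx j`. `idx j < idx (j+1)` by
`idx_lt` applied to `y = bar j`, `z = bar (j+1)` using `chain_cr`, `chain_right`, `chain_left`.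
-/

namespace Pool.JohD

namespace Sys

variable {G Y : Type} [Group G] [MulAction G Y] {X : Sys G Y} {b : X.Base} {B₀ L₀ : ℕ}

/-- Words of blocks. -/
def word (P : Pkg b B₀ L₀) (a : ℕ → G) (σ : ℕ → Bool) : ℕ → G
  | 0 => 1
  | m + 1 => word P a σ m * (a m * Pr (P.t (σ m)) P.q)

/-- Admissible tuples. -/
structure Ok (P : Pkg b B₀ L₀) (a : ℕ → G) (σ : ℕ → Bool) (m : ℕ) : Prop where
  zero : a 0 = 1
  gd : ∀ i, i + 1 < m → Gd b P.K (P.y (σ i) (P.q - 1)) (a (i + 1)) (P.y (σ (i + 1)) 0)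

/-- Barrier curves. -/
def bar (P : Pkg b B₀ L₀) (a : ℕ → G) (σ : ℕ → Bool) (j : ℕ) : Y :=
  (word P a σ (j / P.q) * a (j / P.q) * Pr (P.t (σ (j / P.q))) (j % P.q)) •
    P.y (σ (j / P.q)) (j % P.q)

theorem bar_idx (P : Pkg b B₀ L₀)
    (hB₀ : ∀ y, ∀ e ∈ b.L, ∀ e' ∈ b.L, X.cr y e → X.cr y e' → X.d y e e' ≤ B₀)
    {n B : ℕ} (hL : 7 * X.κ + 2 * B₀ + B + 1 ≤ L₀) {a : ℕ → G} {σ : ℕ → Bool} {m : ℕ}
    (hok : Ok P a σ m) {p : ℕ → G} (hp0 : p 0 = 1) (hpn : p n = word P a σ m)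
    (hB : ∀ y : Y, ∀ i < n, dd b y (p i) (p (i + 1)) ≤ B) :
    ∃ idx : ℕ → ℕ, ∀ j < P.q * m, idx j ≤ n ∧ IsIdx b L₀ p (bar P a σ j) (idx j) ∧
      2 * L₀ ≤ dd b (bar P a σ j) (p 0) (p n) ∧ (j + 1 < P.q * m → idx j < idx (j + 1)) := by
  sorry

end Sys

end Pool.JohD
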