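import Pool.Agent.JohD.Pt

/-!
# MODULE JohD/CommN (crossing elements in commutator subgroups; abstract part)

Let `ν ∈ N` and `e' := ν • e` with `cr e e'`. Let `t = T e ^ (M : ℤ)`, `t' = ν * t * ν⁻¹` (a twist of
size `M` about `e'`, `Tw.conj`), `M` large (`M > 4 κ + d e e' e' + d e' e e + 1` will do).
`θ = t * t'⁻¹ = (t * ν * t⁻¹) * ν⁻¹ ∈ N`, `θ₂ = t⁻¹ * θ * t = t'⁻¹ * t ∈ N`, so
`η = θ * θ₂ * θ⁻¹ * θ₂⁻¹ = t t'⁻¹ t'⁻¹ t · t' t⁻¹ · t⁻¹ t' = t t'⁻² t t' t⁻² t'` is in `⁅N, N⁆`.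
Claim: `cr e' (η • e')`. `t' • e' = e'`, so `η • e' = t t'⁻² t t' t⁻² • e'`.
Ping-pong, two steps:
(a) if `cr e w` and `d e w e' ≤ κ'` (`κ' := 2 κ + d e e' e'`) and `s` is a twist of size `≥ M` about `e`, then
`cr e (s • w)` and `κ < d e (s • w) e'`: `Tw.big` gives `M ≤ d e e' (s • w) + d e e' w + κ`.
Then by `d_cr`, `cr (s • w) e'` and by `beh` (`e, e', s • w`), `d e' e (s • w) ≤ κ`.
(b) the same with `e` and `e'` exchanged.
Start with `w = e'`: `cr e e'` and `d e e' e' ≤ κ`. After `t⁻²` (about `e`): crosses `e'` and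
`d e' e · ≤ κ`; after `t'`: crosses `e` and `d e e' · ≤ κ`; after `t`: ...; after `t'⁻²`; after the last `t`
(about `e`): crosses `e'`. This is the claim. (The squares are twists of size `≥ M`: `t * t` is
`T e ^ (2 M)`; or simply apply the step twice: (a) for the first `t⁻¹` gives `κ < d e (t⁻¹ w) e'`, which is
not of the form needed for a second application, so better use `T e ^ (-2 M : ℤ)` and `Tw.mono`.)
-/

namespace Pool.JohD

namespace Sys

variable {G Y : Type} [Group G] [MulAction G Y] {X : Sys G Y}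

theorem comm_cross (F : X.Full) (N : Subgroup G) [N.Normal] (hN : ∃ ν ∈ N, ∃ e, X.cr e (ν • e)) :
    ∃ ν ∈ ⁅N, N⁆, ∃ e, X.cr e (ν • e) := by
  sorry

end Sys

end Pool.JohD
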