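import Pool.Agent.JohD.Block

/-!
# MODULE JohD/Count (a group element is the value of few words; abstract part)

Fix `σ`, `m`, a path `p` with `p 0 = 1`, and consider the set `𝒜` of `a : ℕ → G` with `a i = 1` for `i ≥ m`,
`Ok P a σ m`, `word P a σ m = p n`. Claim: `ncard 𝒜 ≤ C ^ m * (n+1).choose (q m)` (and finite).

To `a ∈ 𝒜` associate by `bar_idx` the finset `I a = image idx (range (q m))`, a `q m`-element subset of
`range (n+1)` (`idx` is strictly increasing on `range (q m)`). So there are at most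
`(n+1).choose (q m)` values, and it is enough to show: each fibre is finite with at most `C ^ m` elements
(`Finset.card_le_mul_card_image` or similar; or `Set.ncard` arguments through an injection into a product).

Fibre. Let `a, a'` have the same finset; then `idx j = idx' j` for all `j < q m` (both enumerate the same
finset increasingly: e.g. `Finset.orderEmbOfFin` uniqueness, or `StrictMonoOn` arguments). By `idx_not_cr`,
`¬ cr (bar a j) (bar a' j)` for all `j < q m`. Put `u i = word P a σ i * a i`, `u' i` likewise for `a'`, and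
`Δ i = (u i)⁻¹ * u' i`, `i < m`. For `r < q`, `j = q i + r`: `bar a j = u i • Pr (t (σ i)) r • y (σ i) r`, so
`¬ cr (Pr (t (σ i)) r • y (σ i) r) (Δ i • Pr (t (σ i)) r • y (σ i) r)`, i.e. `Δ i ∈ D (σ i)`, the set
of `P.dec`, of cardinality at most `C`.
Fix `a` in the fibre; the map `a' ↦ (Δ i)_{i<m}` from the fibre to `∏_{i<m} D (σ i)` is injective: the `Δ i`
determine all `u' i`, and `a' 0 = 1`, `a' (i+1) = (u' i * f_{σ i})⁻¹ * u' (i+1)` as
`word P a' σ (i+1) = u' i * f_{σ i}`; `a' i = 1` for `i ≥ m`.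
-/

namespace Pool.JohD

namespace Sys

variable {G Y : Type} [Group G] [MulAction G Y] {X : Sys G Y} {b : X.Base} {B₀ L₀ : ℕ}

theorem count_words (P : Pkg b B₀ L₀)
    (hB₀ : ∀ y, ∀ e ∈ b.L, ∀ e' ∈ b.L, X.cr y e → X.cr y e' → X.d y e e' ≤ B₀)
    {n B : ℕ} (hL : 7 * X.κ + 2 * B₀ + B + 1 ≤ L₀) (σ : ℕ → Bool) (m : ℕ)
    {p : ℕ → G} (hp0 : p 0 = 1) (hB : ∀ y : Y, ∀ i < n, dd b y (p i) (p (i + 1)) ≤ B) :
    {a : ℕ → G | (∀ i, m ≤ i → a i = 1) ∧ Ok P a σ m ∧ word P a σ m = p n}.Finite ∧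
    {a : ℕ → G | (∀ i, m ≤ i → a i = 1) ∧ Ok P a σ m ∧ word P a σ m = p n}.ncard ≤
      P.C ^ m * (n + 1).choose (P.q * m) := by
  sorry

end Sys

end Pool.JohD
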