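import Pool.Agent.JohD.Pt

/-!
# MODULE JohD/Cross (curves crossing finitely many curves; paths; abstract part)

`all_cross`. Step (*): if `x` crosses all members of `U` and the curve `c`, and `cr c c'`, then there is
`x'` crossing all members of `U` and `c'`. Proof: `x' = T c ^ M • x` with
`M > 2 κ + d c u x` for all `u ∈ insert c' U`. Let `u ∈ insert c' U`. If `cr c u`, then (`cr c x` and)
`M ≤ d c u x' + d c u x + κ`, so `κ < d c u x'`; `x' = T c ^ M • x` crosses `c` (as `T c ^ M • c = c`), so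
`d_cr` gives `cr u x'`. If `¬ cr c u` (so `u ≠ c'`, `u ∈ U`) then `T c ^ M • u = u` and
`cr x' u ↔ cr x u`, true.
Induction on `U` (empty: `x = y₀`). Let `x` cross all of `U` and let `q` be a new curve. `L` is a list
`[e_1, ..., e_l]` with consecutive members crossing; `x` crosses `e_i := ε x`, and `q` crosses
`e_j := ε q`. Apply (*) along `e_i, e_{i±1}, ..., e_j, q` (start: `c = e_i`, `c' = e_{i±1}`). At the end we
get a curve crossing `U` and `q`.

`exists_path`: `x, e_i, e_{i-1}, ..., e_1, e_2, ..., e_l, e_{l-1}, ..., e_j, x'` with `e_i = ε x`, `e_j = ε x'`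
(`x` crosses `e_i`, `e_j` crosses `x'`); all members of `L` occur.
-/

namespace Pool.JohD

namespace Sys

variable {G Y : Type} [Group G] [MulAction G Y] {X : Sys G Y}

theorem cx_step (F : X.Full) (U : Finset Y) {x c c' : Y} (hx : ∀ u ∈ U, X.cr x u)
    (hxc : X.cr x c) (hcc : X.cr c c') : ∃ x' : Y, (∀ u ∈ U, X.cr x' u) ∧ X.cr x' c' := by
  classical
  obtain ⟨N, hN⟩ : ∃ N : ℕ, ∀ u ∈ insert c' U, X.d c u x ≤ N :=
    ⟨∑ u ∈ insert c' U, X.d c u x, fun u hu =>
      Finset.single_le_sum (f := fun u => X.d c u x) (fun _ _ => Nat.zero_le _) hu⟩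
  have ht := F.tw c ((2 * X.κ + N + 1 : ℕ) : ℤ)
  rw [Int.natAbs_natCast] at ht
  set t : G := F.T c ^ ((2 * X.κ + N + 1 : ℕ) : ℤ) with htd
  have hcx : X.cr c x := X.cr_symm hxc
  have hcx' : X.cr c (t • x) := by
    have h1 := (X.cr_smul t c x).mpr hcx
    rwa [ht.fix] at h1
  have key : ∀ u ∈ insert c' U, (X.cr c u ∨ X.cr x u) → X.cr (t • x) u := by
    intro u hu hor
    by_cases hcu : X.cr c u
    · have h1 := ht.big u x hcu hcx
      have h2 := hN u hu
      exact X.cr_symm (X.d_cr c u (t • x) hcu hcx' (by omega))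
    · have h3 := (X.cr_smul t x u).mpr (hor.resolve_left hcu)
      rwa [ht.triv u hcu] at h3
  exact ⟨t • x, fun u hu => key u (Finset.mem_insert_of_mem hu) (Or.inr (hx u hu)),
    key c' (Finset.mem_insert_self _ _) (Or.inl hcc)⟩

theorem cx_chain {P : Y → Prop} (hP : ∀ a b, X.cr a b → P a → P b) :
    ∀ L : List Y, List.IsChain X.cr L → ∀ e ∈ L, P e → ∀ e' ∈ L, P e'
  | [], _, _, he, _, _, _ => by simp at he
  | [a], _, e, he, hPe, e', he' => by
    rw [List.mem_singleton] at he he'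
    rw [he', ← he]
    exact hPe
  | a :: b :: l, hL, e, he, hPe, e', he' => by
    rw [List.isChain_cons_cons] at hL
    have hb : P b ∧ P a := by
      rcases List.mem_cons.mp he with h | h
      · subst h
        exact ⟨hP _ _ hL.1 hPe, hPe⟩
      · have h1 := cx_chain hP (b :: l) hL.2 e h hPe b (List.mem_cons_self ..)
        exact ⟨h1, hP _ _ (X.cr_symm hL.1) h1⟩
    rcases List.mem_cons.mp he' with h | h
    · rw [h]
      exact hb.2
    · exact cx_chain hP (b :: l) hL.2 b (List.mem_cons_self ..) hb.1 e' h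

theorem all_cross (F : X.Full) (y₀ : Y) (U : Finset Y) : ∃ x : Y, ∀ u ∈ U, X.cr x u := by
  classical
  induction U using Finset.induction_on with
  | empty => exact ⟨y₀, fun u hu => absurd hu (Finset.notMem_empty u)⟩
  | insert q U _ ih =>
    obtain ⟨x, hx⟩ := ih
    have hP : ∀ a b, X.cr a b → (∃ x : Y, (∀ u ∈ U, X.cr x u) ∧ X.cr x a) →
        ∃ x : Y, (∀ u ∈ U, X.cr x u) ∧ X.cr x b := by
      rintro a b hab ⟨z, hz, hza⟩
      exact cx_step F U hz hza hab
    have h1 := cx_chain hP F.L F.chain (F.ε x) (F.ε_mem x) ⟨x, hx, F.ε_cr x⟩ (F.ε q) (F.ε_mem q)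
    obtain ⟨z, hz, hzq⟩ := hP _ _ (X.cr_symm (F.ε_cr q)) h1
    refine ⟨z, fun u hu => ?_⟩
    rcases Finset.mem_insert.mp hu with h | h
    · rw [h]
      exact hzq
    · exact hz u h

theorem cx_trans {a b c : Y} {l l' : List Y} (h : List.IsChain X.cr (a :: (l ++ [b])))
    (h' : List.IsChain X.cr (b :: (l' ++ [c]))) :
    List.IsChain X.cr (a :: ((l ++ b :: l') ++ [c])) := by
  have h1 : List.IsChain X.cr ((a :: l) ++ b :: (l' ++ [c])) :=
    List.isChain_split.mpr ⟨h, h'⟩
  simpa using h1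

theorem exists_path (F : X.Full) (x x' : Y) :
    ∃ l : List Y, List.IsChain X.cr (x :: (l ++ [x'])) ∧ ∀ e ∈ F.L, e ∈ l := by
  have hstep : ∀ z a b, X.cr a b → (∃ l : List Y, List.IsChain X.cr (z :: (l ++ [a]))) →
      ∃ l : List Y, List.IsChain X.cr (z :: (l ++ [b])) := by
    rintro z a b hab ⟨l, hl⟩
    exact ⟨_, cx_trans (l' := []) hl (by simpa using hab)⟩
  have hall : ∀ z, ∀ f ∈ F.L, ∃ l : List Y, List.IsChain X.cr (z :: (l ++ [f])) := by
    intro z f hf
    exact cx_chain (hstep z) F.L F.chain (F.ε z) (F.ε_mem z)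
      ⟨[], by simpa using F.ε_cr z⟩ f hf
  have hall' : ∀ z z', ∃ l : List Y, List.IsChain X.cr (z :: (l ++ [z'])) := by
    intro z z'
    exact hstep z _ _ (X.cr_symm (F.ε_cr z')) (hall z _ (F.ε_mem z'))
  have main : ∀ S : List Y, ∃ l : List Y, List.IsChain X.cr (x :: (l ++ [x'])) ∧
      ∀ e ∈ S, e ∈ l := by
    intro S
    induction S with
    | nil =>
      obtain ⟨l, hl⟩ := hall' x x'
      exact ⟨l, hl, fun e he => absurd he (List.not_mem_nil)⟩
    | cons f S ih =>
      obtain ⟨l3, h3, hS⟩ := ih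
      obtain ⟨l1, h1⟩ := hall' x f
      obtain ⟨l2, h2⟩ := hall' f x
      refine ⟨_, cx_trans (cx_trans h1 h2) h3, ?_⟩
      intro e he
      rcases List.mem_cons.mp he with h | h
      · subst h
        simp
      · have := hS e h
        simp [this]
  exact main F.L

end Sys

end Pool.JohD
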