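import Pool.Agent.JohD.WfTwist

/-!
# MODULE JohD/Decode (a block of filling twists has finitely many coarse automorphisms; abstract part)

`Pr t r = t 0 * ... * t (r-1)`; barrier curves of the block: `z r = Pr t r • y r`, `r < q`. Note
`z r = Pr t (r+1) • y r` as `t r • y r = y r`; so `(z r, z (r+1)) = Pr t (r+1) • (y r, y (r+1))` weakly fill, and
for `0 < r`, `r + 1 < q`, translating by `(Pr t r)⁻¹`: `z (r-1) ↦ y (r-1)`, `z r ↦ y r`,
`z (r+1) ↦ t r • y (r+1)`, so `d (z r) (z (r-1)) (z (r+1)) = d (y r) (y (r-1)) (t r • y (r+1))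
≥ M - d (y r) (y (r-1)) (y (r+1)) - κ`. `M₀ := 7 κ + 1 + ` the maximum of the numbers
`d (y r) (y (r-1)) (y (r+1))`.

Let `Δ` be in the set: `¬ cr (z r) (Δ • z r)` for all `r < q`.
Step 1. For `0 < r`, `r + 1 < q`: `w := Δ • z r` crosses `z (r-1)` and `z (r+1)`, because it does not cross
`z r` and `(z (r-1), z r)`, `(z r, z (r+1))` weakly fill. It also crosses `Δ • z (r-1)` and `Δ • z (r+1)`.
Since `¬ cr (z (r-1)) (Δ • z (r-1))`, `d_cr` gives `d w (z (r-1)) (Δ • z (r-1)) ≤ κ`, similarly for `r+1`. So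
`d w (z (r-1)) (z (r+1)) ≥ d w (Δ • z (r-1)) (Δ • z (r+1)) - 4 κ = d (z r) (z (r-1)) (z (r+1)) - 4 κ > κ`.
Hence `w` is in the set `E r := {y | cr y (z (r-1)) ∧ cr y (z (r+1)) ∧ κ < d y (z (r-1)) (z (r+1))}`, finite by
`fin`.
Step 2. So the map `Δ ↦ (Δ • z r)` (`0 < r < q - 1`) has finite range. If `Δ` and `Δ'` have the same image,
`s := Δ⁻¹ * Δ'` fixes `z r` for all interior `r`. Put `s' = (Pr t 1)⁻¹ * s * Pr t 1`. By induction on
`r ≥ 1`, `r + 1 < q`: `s'' r := (Pr t r)⁻¹ * s * Pr t r` fixes `y r` (definition of `z r`), so commutes with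
`t r` (`Tw.comm`), so `s'' (r+1) = (t r)⁻¹ * s'' r * t r = s'' r`. Hence all the `s'' r` are equal to `s'` and
`s'` fixes `y r` for all interior `r`, so all members of `L`: `s'` is in the finite set `b.stab`, and
`s = Pr t 1 * s' * (Pr t 1)⁻¹`.
Conclusion: finite fibres and finite range (`Set.Finite.of_finite_fibers` or similar): the set is finite.
-/

namespace Pool.JohD

namespace Sys

variable {G Y : Type} [Group G] [MulAction G Y] {X : Sys G Y}

namespace Dec

theorem wf_cr {p q : Y} (h : X.WF p q) : X.cr p q := by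
  rcases h p with h1 | h1
  · exact absurd h1 (X.cr_irr p)
  · exact h1

theorem wf_smul {p q : Y} (h : X.WF p q) (g : G) : X.WF (g • p) (g • q) := by
  intro w
  have hw : w = g • (g⁻¹ • w) := by rw [smul_smul, mul_inv_cancel, one_smul]
  rw [hw, X.cr_smul, X.cr_smul]
  exact h _

/-- the barrier curves -/
def z (t : ℕ → G) (y : ℕ → Y) (r : ℕ) : Y := Pr t r • y r

theorem z_succ {M : ℕ} {t : ℕ → G} {y : ℕ → Y} {r : ℕ} (h : X.Tw M (y r) (t r)) :
    z t y r = Pr t (r + 1) • y r := by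
  unfold z
  show Pr t r • y r = (Pr t r * t r) • y r
  rw [mul_smul, h.fix]

theorem z_wf {M : ℕ} {t : ℕ → G} {y : ℕ → Y} {r : ℕ} (h : X.Tw M (y r) (t r))
    (hw : X.WF (y r) (y (r + 1))) : X.WF (z t y r) (z t y (r + 1)) := by
  rw [z_succ h]
  exact wf_smul hw _

theorem z_big {M : ℕ} {t : ℕ → G} {y : ℕ → Y} {r : ℕ} (h0 : X.Tw M (y r) (t r))
    (h : X.Tw M (y (r + 1)) (t (r + 1)))
    (hw0 : X.WF (y r) (y (r + 1))) (hw : X.WF (y (r + 1)) (y (r + 2))) :
    M ≤ X.d (z t y (r + 1)) (z t y r) (z t y (r + 2)) +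
      X.d (y (r + 1)) (y r) (y (r + 2)) + X.κ := by
  have e1 : z t y (r + 2) = Pr t (r + 1) • (t (r + 1) • y (r + 2)) := by
    unfold z
    show (Pr t (r + 1) * t (r + 1)) • y (r + 2) = _
    rw [mul_smul]
  rw [z_succ h0, e1]
  show M ≤ X.d (Pr t (r + 1) • y (r + 1)) (Pr t (r + 1) • y r)
    (Pr t (r + 1) • (t (r + 1) • y (r + 2))) + X.d (y (r + 1)) (y r) (y (r + 2)) + X.κ
  rw [X.d_smul]
  exact h.big _ _ (X.cr_symm (wf_cr hw0)) (wf_cr hw)

end Dec

theorem decode_finite (b : X.Base) {q : ℕ} (y : ℕ → Y)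
    (hy : ∀ r, r + 1 < q → X.WF (y r) (y (r + 1)))
    (hL : ∀ e ∈ b.L, ∃ r, 0 < r ∧ r + 1 < q ∧ y r = e) :
    ∃ M₀ : ℕ, ∀ M ≥ M₀, ∀ t : ℕ → G, (∀ r < q, X.Tw M (y r) (t r)) →
      {Δ : G | ∀ r < q, ¬ X.cr (Pr t r • y r) (Δ • Pr t r • y r)}.Finite := by
  classical
  refine ⟨7 * X.κ + 1 + ∑ r ∈ Finset.range q, X.d (y (r + 1)) (y r) (y (r + 2)), ?_⟩
  intro M hM t ht
  have hz : ∀ r, Pr t r • y r = Dec.z t y r := fun _ => rfl
  simp only [hz]
  set S : Set G := {Δ : G | ∀ r < q, ¬ X.cr (Dec.z t y r) (Δ • Dec.z t y r)} with hS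
  set F : G → (ℕ → Y) := fun Δ r => if r + 2 < q then Δ • Dec.z t y (r + 1) else Dec.z t y 0
    with hF
  set E : ℕ → Set Y := fun r => if r + 2 < q then
      {w | X.cr w (Dec.z t y r) ∧ X.cr w (Dec.z t y (r + 2)) ∧
        X.κ < X.d w (Dec.z t y r) (Dec.z t y (r + 2))} else {Dec.z t y 0} with hE
  have hEfin : ∀ r, (E r).Finite := by
    intro r
    rw [hE]
    dsimp only
    split_ifs
    · exact X.fin _ _
    · exact Set.finite_singleton _
  have hFE : ∀ Δ ∈ S, ∀ r, F Δ r ∈ E r := by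
    intro Δ hΔ r
    rw [hF, hE]
    dsimp only
    split_ifs with hr
    · -- main estimate
      set w := Δ • Dec.z t y (r + 1) with hw
      have wf1 : X.WF (Dec.z t y r) (Dec.z t y (r + 1)) :=
        Dec.z_wf (ht r (by omega)) (hy r (by omega))
      have wf2 : X.WF (Dec.z t y (r + 1)) (Dec.z t y (r + 2)) :=
        Dec.z_wf (ht (r + 1) (by omega)) (hy (r + 1) (by omega))
      have hno : ¬ X.cr w (Dec.z t y (r + 1)) := fun h => hΔ (r + 1) (by omega) (X.cr_symm h)
      have c1 : X.cr w (Dec.z t y r) := by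
        rcases wf1 w with h | h
        · exact h
        · exact absurd h hno
      have c2 : X.cr w (Dec.z t y (r + 2)) := by
        rcases wf2 w with h | h
        · exact absurd h hno
        · exact h
      have c3 : X.cr w (Δ • Dec.z t y r) := by
        rw [hw, X.cr_smul]; exact X.cr_symm (Dec.wf_cr wf1)
      have c4 : X.cr w (Δ • Dec.z t y (r + 2)) := by
        rw [hw, X.cr_smul]; exact Dec.wf_cr wf2
      have d1 : X.d w (Δ • Dec.z t y r) (Dec.z t y r) ≤ X.κ := by
        by_contra hh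
        push Not at hh
        exact hΔ r (by omega) (X.cr_symm (X.d_cr _ _ _ c3 c1 hh))
      have d2 : X.d w (Dec.z t y (r + 2)) (Δ • Dec.z t y (r + 2)) ≤ X.κ := by
        by_contra hh
        push Not at hh
        exact hΔ (r + 2) (by omega) (X.d_cr _ _ _ c2 c4 hh)
      have d3 : X.d w (Δ • Dec.z t y r) (Δ • Dec.z t y (r + 2)) =
          X.d (Dec.z t y (r + 1)) (Dec.z t y r) (Dec.z t y (r + 2)) := by
        rw [hw, X.d_smul]
      have d4 := Dec.z_big (X := X) (t := t) (ht r (by omega)) (ht (r + 1) (by omega))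
        (hy r (by omega)) (hy (r + 1) (by omega))
      have d5 : X.d (y (r + 1)) (y r) (y (r + 2)) ≤
          ∑ r ∈ Finset.range q, X.d (y (r + 1)) (y r) (y (r + 2)) :=
        Finset.single_le_sum (f := fun r => X.d (y (r + 1)) (y r) (y (r + 2)))
          (fun _ _ => Nat.zero_le _) (Finset.mem_range.mpr (by omega))
      have t1 := X.d_tri w _ _ _ c3 c1 c4
      have t2 := X.d_tri w _ _ _ c1 c2 c4
      refine ⟨c1, c2, ?_⟩
      omega
    · exact Set.mem_singleton _
  -- the stabiliser of the interior barrier curves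
  set St : Set G := {s | ∀ r, r + 2 < q → s • Dec.z t y (r + 1) = Dec.z t y (r + 1)} with hSt
  have hStfin : St.Finite := by
    have hsub : St ⊆ (fun g => Pr t 1 * g * (Pr t 1)⁻¹) '' {g : G | ∀ e ∈ b.L, g • e = e} := by
      intro s hs
      have claim : ∀ r, r + 1 < q → (Pr t (r + 1))⁻¹ * s * Pr t (r + 1) =
          (Pr t 1)⁻¹ * s * Pr t 1 := by
        intro r
        induction r with
        | zero => intro _; rfl
        | succ r ih =>
          intro hr
          have ih' := ih (by omega)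
          have hfix : ((Pr t (r + 1))⁻¹ * s * Pr t (r + 1)) • y (r + 1) = y (r + 1) := by
            have h1 := hs r (by omega)
            unfold Dec.z at h1
            rw [mul_smul, mul_smul, h1, smul_smul, inv_mul_cancel, one_smul]
          have hcomm := (ht (r + 1) (by omega)).comm _ hfix
          have e1 : Pr t (r + 1 + 1) = Pr t (r + 1) * t (r + 1) := rfl
          rw [e1, ← ih']
          calc (Pr t (r + 1) * t (r + 1))⁻¹ * s * (Pr t (r + 1) * t (r + 1))
              = (t (r + 1))⁻¹ * (((Pr t (r + 1))⁻¹ * s * Pr t (r + 1)) * t (r + 1)) := by group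
            _ = (t (r + 1))⁻¹ * (t (r + 1) * ((Pr t (r + 1))⁻¹ * s * Pr t (r + 1))) := by
                rw [hcomm]
            _ = (Pr t (r + 1))⁻¹ * s * Pr t (r + 1) := by group
      refine ⟨(Pr t 1)⁻¹ * s * Pr t 1, ?_, by group⟩
      intro e he
      obtain ⟨r, hr0, hr1, rfl⟩ := hL e he
      obtain ⟨r, rfl⟩ : ∃ k, r = k + 1 := ⟨r - 1, by omega⟩
      rw [← claim r (by omega)]
      have h1 := hs r (by omega)
      unfold Dec.z at h1
      rw [mul_smul, mul_smul, h1, smul_smul, inv_mul_cancel, one_smul]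
    exact (b.stab.image _).subset hsub
  -- finite image
  have himg : (F '' S).Finite := by
    have hpi : (F '' S) ⊆ {f : ℕ → Y | (∀ r, f r ∈ E r)} := by
      rintro f ⟨Δ, hΔ, rfl⟩ r
      exact hFE Δ hΔ r
    -- restrict to the first q coordinates
    have hfin2 : {f : ℕ → Y | ∀ r, f r ∈ E r}.Finite := by
      have hinj : Set.InjOn (fun (f : ℕ → Y) (i : Fin q) => f i) {f : ℕ → Y | ∀ r, f r ∈ E r} := by
        intro f hf g hg hfg
        funext r
        by_cases hr : r + 2 < q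
        · exact congrFun hfg ⟨r, by omega⟩
        · have h1 := hf r
          have h2 := hg r
          rw [hE] at h1 h2
          dsimp only at h1 h2
          rw [if_neg hr] at h1 h2
          rw [Set.mem_singleton_iff.mp h1, Set.mem_singleton_iff.mp h2]
      apply Set.Finite.of_finite_image _ hinj
      apply (Set.Finite.pi (fun i : Fin q => hEfin i)).subset
      rintro f ⟨g, hg, rfl⟩ i _
      exact hg i
    exact hfin2.subset hpi
  apply Set.Finite.of_finite_fibers F himg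
  rintro x ⟨Δ, hΔ, rfl⟩
  have hsub : S ∩ F ⁻¹' {F Δ} ⊆ (fun s => Δ * s) '' St := by
    rintro Δ' ⟨_, hF'⟩
    refine ⟨Δ⁻¹ * Δ', ?_, by simp⟩
    intro r hr
    have h1 : F Δ' r = F Δ r := by rw [Set.mem_singleton_iff.mp hF']
    rw [hF] at h1
    dsimp only at h1
    rw [if_pos hr, if_pos hr] at h1
    rw [mul_smul, h1, smul_smul, inv_mul_cancel, one_smul]
  exact (hStfin.image _).subset hsub

end Sys

end Pool.JohD
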