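import Mathlib

/-!
Johnson filtration density, abstract part: curve systems.

A `Sys G Y` is a set `Y` of (isotopy classes of) curves with an action of a group `G`, a crossing
relation `cr` and twisting distances `d y u v` (the amount by which `u` and `v` twist around `y`
relative to each other, meaningful when `y` crosses both).
-/

namespace Pool.JohD

/-- Curve systems. -/
structure Sys (G Y : Type) [Group G] [MulAction G Y] where
  /-- crossing -/
  cr : Y → Y → Prop
  /-- relative twisting of `u` and `v` around `y` -/
  d : Y → Y → Y → ℕ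
  /-- the constant -/
  κ : ℕ
  cr_symm : ∀ {u v : Y}, cr u v → cr v u
  cr_irr : ∀ u : Y, ¬ cr u u
  cr_smul : ∀ (g : G) (u v : Y), cr (g • u) (g • v) ↔ cr u v
  d_smul : ∀ (g : G) (y u v : Y), d (g • y) (g • u) (g • v) = d y u v
  d_symm : ∀ y u v : Y, d y u v = d y v u
  d_self : ∀ y u : Y, cr y u → d y u u ≤ κ
  d_tri : ∀ y u v w : Y, cr y u → cr y v → cr y w → d y u w ≤ d y u v + d y v w + κ
  d_cr : ∀ y u v : Y, cr y u → cr y v → κ < d y u v → cr u v
  beh : ∀ y z u : Y, cr y z → cr y u → cr z u → κ < d y z u → d z y u ≤ κ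
  bdd : ∀ u v : Y, ∃ B : ℕ, ∀ y, cr y u → cr y v → d y u v ≤ B
  fin : ∀ u v : Y, {y | cr y u ∧ cr y v ∧ κ < d y u v}.Finite

namespace Sys

variable {G Y : Type} [Group G] [MulAction G Y] (X : Sys G Y)

/-- `t` is a (power of a) twist about `y` of size at least `M`. -/
structure Tw (M : ℕ) (y : Y) (t : G) : Prop where
  fix : t • y = y
  triv : ∀ u : Y, ¬ X.cr y u → t • u = u
  big : ∀ u v : Y, X.cr y u → X.cr y v → M ≤ X.d y u (t • v) + X.d y u v + X.κ
  comm : ∀ g : G, g • y = y → g * t = t * g

/-- `p` and `q` fill weakly: every curve of the system crosses one of them. -/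
def WF (p q : Y) : Prop := ∀ y : Y, X.cr y p ∨ X.cr y q

/-- A base: a list `L` of curves, consecutive ones crossing, such that every curve `y` crosses the
member `ε y` of `L`, and with finite pointwise stabiliser. -/
structure Base where
  /-- the list -/
  L : List Y
  /-- for every curve a member of the list crossing it -/
  ε : Y → Y
  chain : List.IsChain X.cr L
  ε_mem : ∀ y, ε y ∈ L
  ε_cr : ∀ y, X.cr y (ε y)
  stab : {g : G | ∀ e ∈ L, g • e = e}.Finite

/-- All the data together: a base, and powers of twists of every size about every curve. -/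
structure Full extends X.Base where
  /-- the twists -/
  T : Y → G
  tw : ∀ (y : Y) (M : ℤ), X.Tw M.natAbs y (T y ^ M)

variable {X}
variable (b : X.Base)

/-- The projection of the group element `g` to the curve `y`: a curve crossing `y`. -/
def pt (y : Y) (g : G) : Y := g • b.ε (g⁻¹ • y)

/-- The distance of `g` and `h` seen from `y`. -/
def dd (y : Y) (g h : G) : ℕ := X.d y (pt b y g) (pt b y h)

/-- `h` is good between `y` and `y'`. -/
structure Gd (K : ℕ) (y : Y) (h : G) (y' : Y) : Prop where
  cr : X.cr y (h • y')
  left : X.d y (h • y') (pt b y 1) ≤ K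
  right : X.d y' (h⁻¹ • y) (pt b y' 1) ≤ K

end Sys

end Pool.JohD
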