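import Mathlib

/-!
# MODULE JohD/Perm (pairs of tuples with the same multiset; easy, pure combinatorics)

For a finset `A` and `k`, consider the pairs `(u, v)` of functions `Fin k → A` such that the lists
`List.ofFn u`, `List.ofFn v` are permutations of each other. The counting function of `u` is
`c u : A → Fin (k+1)`, `c u x = #{i | u i = x}`; `c u = c v` iff the lists are permutations of each other
(`List.perm_iff_count`). There are `(k+1) ^ A.card` functions `A → Fin (k+1)`. With `n_c` the number of
`u` with counting function `c`, the number of pairs is `∑_c n_c ^ 2 ≥ (∑_c n_c) ^ 2 / (k+1) ^ A.card`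
(`sq_sum_le_card_mul_sum_sq` or Cauchy-Schwarz) and `∑_c n_c = A.card ^ k`.
-/

namespace Pool.JohD

theorem perm_pairs {α : Type} [DecidableEq α] (A : Finset α) (k : ℕ) :
    A.card ^ (2 * k) ≤ (k + 1) ^ A.card *
      {z : (Fin k → A) × (Fin k → A) | (List.ofFn z.1).Perm (List.ofFn z.2)}.ncard := by
  classical
  let f : (Fin k → A) → (A → Fin (k + 1)) := fun u x => ⟨List.count x (List.ofFn u), by
    have h := List.count_le_length (a := x) (l := List.ofFn u)
    rw [List.length_ofFn] at h
    omega⟩
  have hf : ∀ u v : Fin k → A, (List.ofFn u).Perm (List.ofFn v) ↔ f u = f v := by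
    intro u v
    rw [List.perm_iff_count]
    constructor
    · intro h
      funext x
      exact Fin.ext (h x)
    · intro h x
      exact congrArg Fin.val (congrFun h x)
  have hset : {z : (Fin k → A) × (Fin k → A) | (List.ofFn z.1).Perm (List.ofFn z.2)} =
      ↑(Finset.univ.filter (fun z : (Fin k → A) × (Fin k → A) => f z.1 = f z.2)) := by
    ext z
    rw [Set.mem_ofPred_eq, hf, Finset.coe_filter, Set.mem_ofPred_eq]
    simp
  rw [hset, Set.ncard_coe_finset]
  have h1 : (Finset.univ.filter (fun z : (Fin k → A) × (Fin k → A) => f z.1 = f z.2)).card =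
      ∑ c : A → Fin (k + 1), (Finset.univ.filter (fun u : Fin k → A => f u = c)).card ^ 2 := by
    rw [Finset.card_eq_sum_card_fiberwise (f := fun z : (Fin k → A) × (Fin k → A) => f z.1)
      (t := Finset.univ) (fun _ _ => Finset.mem_coe.2 (Finset.mem_univ _))]
    refine Finset.sum_congr rfl fun c _ => ?_
    rw [sq, ← Finset.card_product]
    congr 1
    ext z
    simp only [Finset.mem_filter, Finset.mem_univ, true_and, Finset.mem_product]
    constructor
    · rintro ⟨h2, h3⟩
      exact ⟨h3, h2 ▸ h3⟩
    · rintro ⟨h2, h3⟩
      exact ⟨h2.trans h3.symm, h2⟩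
  have h2 : ∑ c : A → Fin (k + 1), (Finset.univ.filter (fun u : Fin k → A => f u = c)).card =
      A.card ^ k := by
    rw [← Finset.card_eq_sum_card_fiberwise (f := f)
      (t := Finset.univ) (fun _ _ => Finset.mem_coe.2 (Finset.mem_univ _)), Finset.card_univ,
      Fintype.card_fun, Fintype.card_fin, Fintype.card_coe]
  have h3 := sq_sum_le_card_mul_sum_sq (s := (Finset.univ : Finset (A → Fin (k + 1))))
    (f := fun c => (Finset.univ.filter (fun u : Fin k → A => f u = c)).card)
  rw [h2, ← h1, Finset.card_univ, Fintype.card_fun, Fintype.card_fin, Fintype.card_coe,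
    ← pow_mul, mul_comm k 2] at h3
  exact h3

end Pool.JohD
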