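import Pool.Agent.JohD.Tup
import Pool.Agent.JohD.Ball
import Pool.Agent.JohD.Perm

/-!
# MODULE JohD/Ineq (the two counting inequalities; abstract part)

Setting: `P : NPkg b N B₀ L₀`, `N` normal, `S` a finite set, `Step S B`: every element `w` of `ball S n` is the
end `p n` of a path `p` from `1` with steps `≤ B` seen from all curves; `L₀` large. `c₀` is such that `fp`, `hm`
and all `h ∈ P.P` are in `ball S c₀`.
For `a : G` choose `h, h' ∈ P.P` by `P.adj` and put `c a = h * a * h'`; it is `GdT`, and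
(*) for given `g` there are at most `P.P.card ^ 2` elements `a` with `c a = g` (`a = h⁻¹ * g * h'⁻¹`).

`ineq_main`. Here `N ≤ H`, `⁅x, y⁆ ∈ N` for `x, y ∈ H`, and `A ⊆ H ∩ ball S r`. For a pair `(u, v)` of functions
`Fin k → A` with `List.ofFn u ~ List.ofFn v` let `α = List.ofFn (c ∘ u)`, `β = List.ofFn (c ∘ v)` and
`w = U P α * hm * (U P β)⁻¹`.
 (i) `w ∈ ball S n`, `n = 2 k (r + 3 c₀) + 3 c₀`: `U P α ∈ ball S (k (r + 3 c₀) + c₀)` by induction (each
  `c a ∈ ball S (r + 2 c₀)`, `fp ∈ ball S c₀`), `hm ∈ ball S c₀`.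
 (ii) `w ∈ N`: modulo `N` (`QuotientGroup.mk' N`) the elements of `P.P`, `fp` and `hm` are trivial, and images of
  elements of `H` commute. So the image of `U P α` is the product of the images of the `u i`, that of `U P β` is
  the product of the images of the `v i`, and the two are equal by `List.Perm.prod_eq'` (pairwise commuting).
 (iii) given `w`, there are at most `C^(2k+2) * (n+1).choose (q (2k+2))` pairs `(α, β)` (`count_pairs`), and for
  given `(α, β)` at most `(P.P.card ^ 2) ^ (2 k)` pairs `(u, v)`, by (*).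
So the number of pairs `(u, v)` is at most `|N ∩ ball S n| * C^(2k+2) * choose * P.P.card ^ (4 k)`; combine with
`perm_pairs`.

`ineq_half`. For `a ∈ ball S r` let `w = U P [c a] * hm * (U P [c a])⁻¹ ∈ N` (conjugate of `hm`), in
`ball S (2 (r + 3 c₀) + 3 c₀)`. As in (iii) with `k = 1`, the map `a ↦ w` is at most
`P.P.card ^ 2 * C ^ 4 * choose`-to-one.
-/

namespace Pool.JohD

open Pool.Agent.Hhelper67.Johnson
open scoped commutatorElement

namespace Sys

variable {G Y : Type} [Group G] [MulAction G Y] {X : Sys G Y} {b : X.Base} {N : Subgroup G}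
  {B₀ L₀ : ℕ}

/-- Elements of balls are ends of paths with steps at most `B`. -/
def Step (b : X.Base) (S : Finset G) (B : ℕ) : Prop :=
  ∀ (n : ℕ) (w : G), w ∈ ball S n → ∃ p : ℕ → G, p 0 = 1 ∧ p n = w ∧
      ∀ y : Y, ∀ i < n, Sys.dd b y (p i) (p (i + 1)) ≤ B

section Aux

theorem U_ball (P : NPkg b N B₀ L₀) (S : Finset G) {c₀ ρ : ℕ} (hf : P.fp ∈ ball S c₀) :
    ∀ (l : List G), (∀ x ∈ l, x ∈ ball S ρ) → U P l ∈ ball S (l.length * (ρ + c₀) + c₀) := by
  intro l
  induction l with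
  | nil =>
    intro _
    simpa [U] using hf
  | cons x l ih =>
    intro h
    have h1 := ih fun y hy => h y (List.mem_cons_of_mem _ hy)
    have h2 : P.fp * (x * U P l) ∈ ball S (c₀ + (ρ + (l.length * (ρ + c₀) + c₀))) :=
      ball_mul hf (ball_mul (h x List.mem_cons_self) h1)
    have h3 : c₀ + (ρ + (l.length * (ρ + c₀) + c₀)) = (x :: l).length * (ρ + c₀) + c₀ := by
      rw [List.length_cons]; ring
    rw [h3] at h2
    exact h2

theorem mk_U [N.Normal] (P : NPkg b N B₀ L₀) (l : List G) :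
    (QuotientGroup.mk' N) (U P l) = (l.map (QuotientGroup.mk' N)).prod := by
  have hfp : (QuotientGroup.mk' N) P.fp = 1 := (QuotientGroup.eq_one_iff _).mpr P.fp_mem
  induction l with
  | nil => simpa [U] using hfp
  | cons x l ih =>
    rw [U, map_mul, map_mul, hfp, one_mul, ih, List.map_cons, List.prod_cons]

theorem w_ball (P : NPkg b N B₀ L₀) (S : Finset G) {c₀ ρ k : ℕ} (hf : P.fp ∈ ball S c₀)
    (hm : P.hm ∈ ball S c₀) {α β : List G} (hα : α.length = k) (hβ : β.length = k)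
    (ha : ∀ x ∈ α, x ∈ ball S ρ) (hb : ∀ x ∈ β, x ∈ ball S ρ) :
    U P α * P.hm * (U P β)⁻¹ ∈ ball S (2 * k * (ρ + c₀) + 3 * c₀) := by
  have h1 := U_ball P S hf α ha
  have h2 := U_ball P S hf β hb
  rw [hα] at h1
  rw [hβ] at h2
  have h3 := ball_mul (ball_mul h1 hm) (ball_inv h2)
  have h4 : k * (ρ + c₀) + c₀ + c₀ + (k * (ρ + c₀) + c₀) = 2 * k * (ρ + c₀) + 3 * c₀ := by ring
  rw [h4] at h3
  exact h3

/-- Adjusted elements. -/
theorem exists_adj (P : NPkg b N B₀ L₀) : ∃ h h' : G → P.P, ∀ a : G,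
    GdT P ((h a : G) * a * (h' a : G)) := by
  have h := fun a => P.adj a
  choose f hf g hg hfg using h
  exact ⟨fun a => ⟨f a, hf a⟩, fun a => ⟨g a, hg a⟩, fun a => hfg a⟩

theorem mk_adj [N.Normal] (P : NPkg b N B₀ L₀) (h h' : G → P.P) (a : G) :
    (QuotientGroup.mk' N) ((h a : G) * a * (h' a : G)) = (QuotientGroup.mk' N) a := by
  have h1 : (QuotientGroup.mk' N) (h a : G) = 1 :=
    (QuotientGroup.eq_one_iff _).mpr (P.P_mem _ (h a).2)
  have h2 : (QuotientGroup.mk' N) (h' a : G) = 1 :=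
    (QuotientGroup.eq_one_iff _).mpr (P.P_mem _ (h' a).2)
  rw [map_mul, map_mul, h1, h2, one_mul, mul_one]

theorem adj_ball (P : NPkg b N B₀ L₀) (S : Finset G) {c₀ r : ℕ}
    (hP : ∀ h ∈ P.P, h ∈ ball S c₀) (h h' : G → P.P) {a : G} (ha : a ∈ ball S r) :
    (h a : G) * a * (h' a : G) ∈ ball S (r + 2 * c₀) := by
  have h1 := ball_mul (ball_mul (hP _ (h a).2) ha) (hP _ (h' a).2)
  have h4 : c₀ + r + c₀ = r + 2 * c₀ := by ring
  rw [h4] at h1
  exact h1

theorem count_T (P : NPkg b N B₀ L₀)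
    (hB₀ : ∀ y, ∀ e ∈ b.L, ∀ e' ∈ b.L, X.cr y e → X.cr y e' → X.d y e e' ≤ B₀)
    {B : ℕ} (hL : 7 * X.κ + 2 * B₀ + B + 1 ≤ L₀) (S : Finset G) (hS : Step b S B) (k n : ℕ)
    (T : Finset (List G × List G))
    (hT : ∀ z ∈ T, z.1.length = k ∧ z.2.length = k ∧ (∀ x ∈ z.1, GdT P x) ∧
      (∀ x ∈ z.2, GdT P x) ∧ U P z.1 * P.hm * (U P z.2)⁻¹ ∈ ball S n ∩ (N : Set G)) :
    T.card ≤ P.C ^ (2 * k + 2) * (n + 1).choose (P.q * (2 * k + 2)) *
      (ball S n ∩ (N : Set G)).ncard := by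
  classical
  have hfin : (ball S n ∩ (N : Set G)).Finite := (ball_finite S n).inter_of_left _
  have h1 : T.card ≤ (P.C ^ (2 * k + 2) * (n + 1).choose (P.q * (2 * k + 2))) *
      (T.image fun z => U P z.1 * P.hm * (U P z.2)⁻¹).card := by
    apply Finset.card_le_mul_card_image
    intro w hw
    obtain ⟨z, hz, rfl⟩ := Finset.mem_image.mp hw
    obtain ⟨p, hp0, hpn, hpB⟩ := hS n _ (hT z hz).2.2.2.2.1
    obtain ⟨hf, hc⟩ := count_pairs P hB₀ hL hp0 hpB k
    refine le_trans ?_ hc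
    rw [Set.ncard_eq_toFinset_card _ hf]
    apply Finset.card_le_card
    intro z' hz'
    rw [Finset.mem_filter] at hz'
    rw [Set.Finite.mem_toFinset]
    obtain ⟨a1, a2, a3, a4, -⟩ := hT z' hz'.1
    exact ⟨a1, a2, a3, a4, by rw [hz'.2, hpn]⟩
  refine h1.trans (Nat.mul_le_mul_left _ ?_)
  rw [Set.ncard_eq_toFinset_card _ hfin]
  apply Finset.card_le_card
  intro w hw
  obtain ⟨z, hz, rfl⟩ := Finset.mem_image.mp hw
  rw [Set.Finite.mem_toFinset]
  exact (hT z hz).2.2.2.2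

theorem adj_inj (P : NPkg b N B₀ L₀) (h h' : G → P.P) {a a' : G} (e1 : h a = h a')
    (e2 : h' a = h' a') (e : (h a : G) * a * (h' a : G) = (h a' : G) * a' * (h' a' : G)) :
    a = a' := by
  rw [e1, e2] at e
  exact mul_left_cancel (mul_right_cancel e)

end Aux

theorem ineq_main [N.Normal] (P : NPkg b N B₀ L₀)
    (hB₀ : ∀ y, ∀ e ∈ b.L, ∀ e' ∈ b.L, X.cr y e → X.cr y e' → X.d y e e' ≤ B₀)
    {B : ℕ} (hL : 7 * X.κ + 2 * B₀ + B + 1 ≤ L₀) (S : Finset G) (hS : Step b S B) {c₀ : ℕ}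
    (hf : P.fp ∈ ball S c₀) (hm : P.hm ∈ ball S c₀) (hP : ∀ h ∈ P.P, h ∈ ball S c₀)
    (H : Subgroup G) (hNH : N ≤ H) (hab : ∀ x ∈ H, ∀ y ∈ H, ⁅x, y⁆ ∈ N) (r k : ℕ) :
    (ball S r ∩ H).ncard ^ (2 * k) ≤
      (k + 1) ^ (ball S r ∩ H).ncard * (P.P.card ^ (4 * k) * (P.C ^ (2 * k + 2) *
        (2 * k * (r + 3 * c₀) + 3 * c₀ + 1).choose (P.q * (2 * k + 2)) *
          (ball S (2 * k * (r + 3 * c₀) + 3 * c₀) ∩ N).ncard)) := by
  classical
  have hfin : (ball S r ∩ (H : Set G)).Finite := (ball_finite S r).inter_of_left _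
  obtain ⟨h, h', hh⟩ := exists_adj P
  set A : Finset G := hfin.toFinset with hA
  have hcard : (ball S r ∩ (H : Set G)).ncard = A.card := Set.ncard_eq_toFinset_card _ hfin
  have hmemA : ∀ a : A, (a : G) ∈ ball S r ∧ (a : G) ∈ H := fun a =>
    (Set.Finite.mem_toFinset hfin).mp a.2
  rw [hcard]
  refine (perm_pairs A k).trans (Nat.mul_le_mul_left _ ?_)
  let cc : G → G := fun a => (h a : G) * a * (h' a : G)
  let s : Finset ((Fin k → A) × (Fin k → A)) :=
    Finset.univ.filter fun z => (List.ofFn z.1).Perm (List.ofFn z.2)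
  have hs : {z : (Fin k → A) × (Fin k → A) | (List.ofFn z.1).Perm (List.ofFn z.2)}.ncard
      = s.card := by
    rw [← Set.ncard_coe_finset]
    congr 1
    ext z
    simp [s]
  rw [hs]
  let f1 : (Fin k → A) × (Fin k → A) → List G × List G := fun z =>
    (List.ofFn fun i => cc (z.1 i), List.ofFn fun i => cc (z.2 i))
  let f3 : (Fin k → A) × (Fin k → A) → (Fin k → P.P × P.P) × (Fin k → P.P × P.P) := fun z =>
    (fun i => (h (z.1 i), h' (z.1 i)), fun i => (h (z.2 i), h' (z.2 i)))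
  have h1 : s.card ≤ ((Finset.univ : Finset ((Fin k → P.P × P.P) × (Fin k → P.P × P.P))) ×ˢ
      (s.image f1)).card := by
    apply Finset.card_le_card_of_injOn (fun z => (f3 z, f1 z))
    · intro z hz
      simp only [Finset.coe_product, Finset.coe_univ, Finset.coe_image, Set.mem_prod, Set.mem_univ,
        true_and]
      exact ⟨z, hz, rfl⟩
    · intro z _ z' _ e
      rw [Prod.mk.injEq] at e
      obtain ⟨e3, e1⟩ := e
      simp only [f3, Prod.mk.injEq, funext_iff] at e3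
      simp only [f1, Prod.mk.injEq] at e1
      have e11 := funext_iff.mp (List.ofFn_injective e1.1)
      have e12 := funext_iff.mp (List.ofFn_injective e1.2)
      apply Prod.ext
      · funext i
        exact Subtype.ext (adj_inj P h h' (e3.1 i).1 (e3.1 i).2 (e11 i))
      · funext i
        exact Subtype.ext (adj_inj P h h' (e3.2 i).1 (e3.2 i).2 (e12 i))
  have h2 : ((Finset.univ : Finset ((Fin k → P.P × P.P) × (Fin k → P.P × P.P))) ×ˢ
      (s.image f1)).card = P.P.card ^ (4 * k) * (s.image f1).card := by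
    rw [Finset.card_product]
    congr 1
    rw [Finset.card_univ, Fintype.card_prod, Fintype.card_fun, Fintype.card_prod, Fintype.card_coe,
      Fintype.card_fin]
    ring
  refine (h1.trans h2.le).trans (Nat.mul_le_mul_left _ ?_)
  apply count_T P hB₀ hL S hS
  intro z hz
  obtain ⟨w, hw, rfl⟩ := Finset.mem_image.mp hz
  have hperm : (List.ofFn w.1).Perm (List.ofFn w.2) := (Finset.mem_filter.mp hw).2
  have g1 : ∀ x ∈ (f1 w).1, GdT P x ∧ x ∈ ball S (r + 2 * c₀) := by
    intro x hx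
    simp only [f1, List.mem_ofFn', Set.mem_range] at hx
    obtain ⟨i, rfl⟩ := hx
    exact ⟨hh _, adj_ball P S hP h h' (hmemA _).1⟩
  have g2 : ∀ x ∈ (f1 w).2, GdT P x ∧ x ∈ ball S (r + 2 * c₀) := by
    intro x hx
    simp only [f1, List.mem_ofFn', Set.mem_range] at hx
    obtain ⟨i, rfl⟩ := hx
    exact ⟨hh _, adj_ball P S hP h h' (hmemA _).1⟩
  have l1 : (f1 w).1.length = k := by simp [f1]
  have l2 : (f1 w).2.length = k := by simp [f1]
  refine ⟨l1, l2, fun x hx => (g1 x hx).1, fun x hx => (g2 x hx).1, ?_, ?_⟩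
  · have := w_ball P S hf hm l1 l2 (fun x hx => (g1 x hx).2) (fun x hx => (g2 x hx).2)
    have e : r + 2 * c₀ + c₀ = r + 3 * c₀ := by ring
    rw [e] at this
    exact this
  · have hhm : (QuotientGroup.mk' N) P.hm = 1 := (QuotientGroup.eq_one_iff _).mpr P.hm_mem
    have key : ∀ u : Fin k → A, (QuotientGroup.mk' N) (U P (List.ofFn fun i => cc (u i))) =
        ((List.ofFn u).map fun a : A => (QuotientGroup.mk' N) (a : G)).prod := by
      intro u
      rw [mk_U, List.map_ofFn, List.map_ofFn]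
      congr 2
      funext i
      exact mk_adj P h h' (u i)
    have hp := hperm.map fun a : A => (QuotientGroup.mk' N) (a : G)
    have hprod := hp.prod_eq' (by
      rw [List.pairwise_map]
      apply List.Pairwise.imp_of_mem (R := fun _ _ => True)
      · intro a a' _ _ _
        rw [← commutatorElement_eq_one_iff_commute, ← map_commutatorElement]
        exact (QuotientGroup.eq_one_iff _).mpr (hab _ (hmemA a).2 _ (hmemA a').2)
      · exact List.pairwise_of_forall (fun _ _ => trivial))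
    have : (QuotientGroup.mk' N) (U P (f1 w).1 * P.hm * (U P (f1 w).2)⁻¹) = 1 := by
      rw [map_mul, map_mul, map_inv, hhm, mul_one, mul_inv_eq_one]
      simp only [f1]
      rw [key, key]
      exact hprod
    exact (QuotientGroup.eq_one_iff _).mp this

theorem ineq_half [N.Normal] (P : NPkg b N B₀ L₀)
    (hB₀ : ∀ y, ∀ e ∈ b.L, ∀ e' ∈ b.L, X.cr y e → X.cr y e' → X.d y e e' ≤ B₀)
    {B : ℕ} (hL : 7 * X.κ + 2 * B₀ + B + 1 ≤ L₀) (S : Finset G) (hS : Step b S B) {c₀ : ℕ}
    (hf : P.fp ∈ ball S c₀) (hm : P.hm ∈ ball S c₀) (hP : ∀ h ∈ P.P, h ∈ ball S c₀) (r : ℕ) :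
    (ball S r).ncard ≤ P.P.card ^ 2 * (P.C ^ 4 *
        (2 * (r + 3 * c₀) + 3 * c₀ + 1).choose (P.q * 4) *
          (ball S (2 * (r + 3 * c₀) + 3 * c₀) ∩ N).ncard) := by
  classical
  have hfin : (ball S r).Finite := ball_finite S r
  obtain ⟨h, h', hh⟩ := exists_adj P
  let cc : G → G := fun a => (h a : G) * a * (h' a : G)
  let f1 : G → List G × List G := fun a => ([cc a], [cc a])
  rw [Set.ncard_eq_toFinset_card _ hfin]
  have h1 : hfin.toFinset.card ≤ ((Finset.univ : Finset (P.P × P.P)) ×ˢ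
      (hfin.toFinset.image f1)).card := by
    apply Finset.card_le_card_of_injOn (fun z => ((h z, h' z), f1 z))
    · intro z hz
      simp only [Finset.coe_product, Finset.coe_univ, Finset.coe_image, Set.mem_prod, Set.mem_univ,
        true_and]
      exact ⟨z, hz, rfl⟩
    · intro z _ z' _ e
      simp only [Prod.mk.injEq, f1, List.cons.injEq, and_true, and_self] at e
      exact adj_inj P h h' e.1.1 e.1.2 e.2
  have h2 : ((Finset.univ : Finset (P.P × P.P)) ×ˢ (hfin.toFinset.image f1)).card =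
      P.P.card ^ 2 * (hfin.toFinset.image f1).card := by
    rw [Finset.card_product]
    congr 1
    rw [Finset.card_univ, Fintype.card_prod, Fintype.card_coe, pow_two]
  refine (h1.trans h2.le).trans (Nat.mul_le_mul_left _ ?_)
  have h3 := count_T P hB₀ hL S hS 1 (2 * (r + 3 * c₀) + 3 * c₀) (hfin.toFinset.image f1) (by
    intro z hz
    obtain ⟨a, ha, rfl⟩ := Finset.mem_image.mp hz
    rw [Set.Finite.mem_toFinset] at ha
    have g1 : ∀ x ∈ (f1 a).1, GdT P x ∧ x ∈ ball S (r + 2 * c₀) := by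
      intro x hx
      simp only [f1, List.mem_singleton] at hx
      rw [hx]
      exact ⟨hh _, adj_ball P S hP h h' ha⟩
    refine ⟨rfl, rfl, fun x hx => (g1 x hx).1, fun x hx => (g1 x hx).1, ?_, ?_⟩
    · have := w_ball P S (k := 1) hf hm (α := (f1 a).1) (β := (f1 a).2) rfl rfl
        (fun x hx => (g1 x hx).2) (fun x hx => (g1 x hx).2)
      have e : 2 * 1 * (r + 2 * c₀ + c₀) + 3 * c₀ = 2 * (r + 3 * c₀) + 3 * c₀ := by ring
      rw [e] at this
      exact this
    · exact Subgroup.Normal.conj_mem inferInstance _ P.hm_mem _)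
  exact h3

end Sys

end Pool.JohD
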