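import Pool.Agent.JohD.Ineq
import Pool.Agent.JohD.Anal
import Pool.Agent.JohD.CommN

/-!
# MODULE JohD/MainAbs (abstract main theorem)

Let `N : ℕ → Subgroup G` be a sequence of normal subgroups with `N (m+1) ≤ N m`,
`⁅N m, N m⁆ ≤ N (m+1)` for `m ≥ 1`, and let `N 1` contain a crossing element. By induction and
`comm_cross`, every `N m`, `m ≥ 1`, contains a crossing element (a crossing element of `⁅N m, N m⁆` is one
of `N (m+1)`). Let `B₀` be from `exists_B0`, `B` from `exists_path_step`, `L₀ = 7 κ + 2 B₀ + B + 1`,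
`P : NPkg F.toBase (N (m+1)) B₀ L₀` from `exists_pkg`, `c₀` from `exists_ball` for the finite set
`{fp, hm} ∪ P.P`. `ineq_main` with `H = N m` and `N = N (m+1)` and `anal_main` (with
`h n = (ball S n ∩ N m).ncard`, `N n = (ball S n ∩ N (m+1)).ncard`, `D = 2 |S| + 1` from `ncard_ball_le`,
`c = 3 c₀`): for all `m ≥ 1`, `log |ball n ∩ N m| / n` and `log |ball n ∩ N (m+1)| / n` converge to the same
limit. So there is one `ℓ` for all `m ≥ 1`.
`ball_lim`: `log |ball n| / n → λ`, and `λ > 0` by `hexp`. `ℓ ≤ λ` clear. `λ ≤ 2 ℓ`: `ineq_half`, `anal_half`.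
`logRatio S (N m) n = (log |ball n ∩ N m| / n) / (log |ball n| / n)` for `n ≥ 1`, so it tends to
`δ = ℓ / λ ∈ [1/2, 1]`.
-/

namespace Pool.JohD

open Pool.Agent.Hhelper67.Johnson Filter
open scoped commutatorElement

theorem main_abs {G Y : Type} [Group G] [MulAction G Y] {X : Sys G Y} (F : X.Full)
    (S : Finset G) (hS : Subgroup.closure (S : Set G) = ⊤) (N : ℕ → Subgroup G)
    (hn : ∀ m, (N m).Normal) (hanti : ∀ m, 1 ≤ m → N (m + 1) ≤ N m)
    (hcomm : ∀ m, 1 ≤ m → ∀ x ∈ N m, ∀ y ∈ N m, ⁅x, y⁆ ∈ N (m + 1))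
    (hcr : ∃ ν ∈ N 1, ∃ e : Y, X.cr e (ν • e))
    {c : ℝ} (hc : 0 < c) {c' : ℝ} (hexp : ∀ n : ℕ, c * n - c' ≤ Real.log ((ball S n).ncard : ℝ)) :
    ∃ δ : ℝ, 1 / 2 ≤ δ ∧ δ ≤ 1 ∧
      ∀ m, 1 ≤ m → Tendsto (logRatio S (N m : Set G)) atTop (nhds δ) := by
  sorry

end Pool.JohD
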