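import Pool.Agent.JohD.Adjust
import Pool.Agent.JohD.Decode

/-!
# MODULE JohD/Pkg (separator packages; abstract part)

`Pkg b B₀ L₀` collects two blocks of twists (`true` and `false`), `NPkg` the data relative to a normal
subgroup `N`.

`exists_pkg`. Let `y₀` be a curve (from `hN`). By `sep_N` (with `U = L`, `V = {y₀}`) get `f' ∈ N` with
`WF e (f' • y₀)` for `e ∈ L`; put `x = f' • y₀`. By `sep_N` (with `U = V = {x}`) get `ν ∈ N` with
`WF x (ν • x)`. Let `L = [e_1, ..., e_l]`; the sequence `c` of length `k = 2 l + 1`: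
`c (2 i) = x` and `c (2 i - 1) = e_i` (so `c i = x` for even `i`, `c i = L[i/2]` (`List.getD`) for odd `i`).
Consecutive members weakly fill. `q = 2 k = 4 l + 2`. `y true r = c r` for `r < k` and
`y true (k + i) = ν • c (k - 1 - i)` for `i < k`. (`y true (k-1) = x`, `y true k = ν • x` weakly fill.)
`y false r = y true (q - 1 - r)`. All interior members: `e_i = c (2 i - 1)` with `0 < 2 i - 1`, `2 i < q`, and
for `false`: `e_i = y false (q - 1 - (2 i - 1))`. So `decode_finite` gives two numbers `M₀`.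
`K`: larger than `κ`, the `K` of `adjust F N hN (y true (q-1)) (y true 0)`, the `K` of
`adjust F N hN (y true (q-1)) (y false 0)` (take `hm = h * 1 * h'` for `a = 1`, an element of `N`), and all
the numbers `d (y σ r) (y σ (r+1)) (pt b (y σ r) 1)`, `d (y σ (r+1)) (y σ r) (pt b (y σ (r+1)) 1)` for
`r + 1 < q`. (Use `Gd.mono`.) `P`: the finset of `adjust`.
`M`: larger than `2 L₀ + 2 K + 2 B₀ + 10 κ + 1` and the two `M₀`.
`t true r = T (c r) ^ (M : ℤ)` for `r < k`, `t true (k + i) = ν * (t true (k - 1 - i))⁻¹ * ν⁻¹` for `i < k`;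
`t false r = (t true (q - 1 - r))⁻¹`. All are twists of size `M` (`Tw.inv`, `Tw.conj`).
`Pr (t true) q = τ * (ν * τ⁻¹ * ν⁻¹)`, `τ = Pr (t true) k` (`mirror`), which is in `N`.
`Pr (t false) q = (Pr (t true) q)⁻¹`: general fact `pr_reverse` (induction: for `j ≤ q`,
`Pr t' j = (Pr t q)⁻¹ * Pr t (q - j)`).
`C`: the larger of the two cardinalities `ncard`. `fp = Pr (t true) q`.
-/

namespace Pool.JohD

namespace Sys

variable {G Y : Type} [Group G] [MulAction G Y] {X : Sys G Y}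

/-- Two blocks of twists. -/
structure Pkg (b : X.Base) (B₀ L₀ : ℕ) where
  /-- number of twists in a block -/
  q : ℕ
  hq : 0 < q
  /-- the curves -/
  y : Bool → ℕ → Y
  /-- the twists -/
  t : Bool → ℕ → G
  /-- constant of goodness -/
  K : ℕ
  /-- size of the twists -/
  M : ℕ
  /-- bound for the decoding sets -/
  C : ℕ
  hκ : X.κ ≤ K
  hM : 2 * L₀ + 2 * K + 2 * B₀ + 10 * X.κ + 1 ≤ M
  tw : ∀ σ, ∀ r < q, X.Tw M (y σ r) (t σ r)
  gd : ∀ σ r, r + 1 < q → Gd b K (y σ r) 1 (y σ (r + 1))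
  dec : ∀ σ, {Δ : G | ∀ r < q, ¬ X.cr (Pr (t σ) r • y σ r) (Δ • Pr (t σ) r • y σ r)}.Finite
  dec_card : ∀ σ,
    {Δ : G | ∀ r < q, ¬ X.cr (Pr (t σ) r • y σ r) (Δ • Pr (t σ) r • y σ r)}.ncard ≤ C

/-- Package for a normal subgroup `N`. -/
structure NPkg (b : X.Base) (N : Subgroup G) (B₀ L₀ : ℕ) extends Pkg b B₀ L₀ where
  /-- the product of the block `true` -/
  fp : G
  fp_mem : fp ∈ N
  fp_eq : Pr (t true) q = fp
  fm_eq : Pr (t false) q = fp⁻¹
  yf0 : y false 0 = y true (q - 1)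
  yfl : y false (q - 1) = y true 0
  /-- adjusting elements -/
  P : Finset G
  P_mem : ∀ h ∈ P, h ∈ N
  adj : ∀ a : G, ∃ h ∈ P, ∃ h' ∈ P, Gd b K (y true (q - 1)) (h * a * h') (y true 0)
  /-- the middle element -/
  hm : G
  hm_mem : hm ∈ N
  hm_gd : Gd b K (y true (q - 1)) hm (y false 0)

theorem pr_reverse (t t' : ℕ → G) (q : ℕ) (h : ∀ r < q, t' r = (t (q - 1 - r))⁻¹) :
    Pr t' q = (Pr t q)⁻¹ := by
  have key : ∀ j ≤ q, Pr t' j = (Pr t q)⁻¹ * Pr t (q - j) := by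
    intro j
    induction j with
    | zero =>
      intro _
      rw [Nat.sub_zero, inv_mul_cancel]
      rfl
    | succ j ih =>
      intro hj
      have h1 : Pr t' (j + 1) = Pr t' j * t' j := rfl
      rw [h1, ih (by omega), h j (by omega)]
      have h2 : q - j = (q - 1 - j) + 1 := by omega
      have h3 : Pr t (q - j) = Pr t (q - 1 - j) * t (q - 1 - j) := by
        rw [h2]
        rfl
      rw [h3, mul_assoc, mul_assoc, mul_inv_cancel, mul_one]
      congr 2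
      omega
  have h1 := key q le_rfl
  rw [Nat.sub_self] at h1
  rw [h1]
  exact mul_one _

namespace PkgAux

/-- the sequence `x, e_1, x, e_2, ..., x` -/
def cc (L : List Y) (x : Y) (i : ℕ) : Y := if i % 2 = 0 then x else L.getD (i / 2) x

/-- the mirrored sequence -/
def yt (ν : G) (k : ℕ) (c : ℕ → Y) (r : ℕ) : Y := if r < k then c r else ν • c (2 * k - 1 - r)

/-- both sequences -/
def yy (ν : G) (k : ℕ) (c : ℕ → Y) : Bool → ℕ → Y
  | true, r => yt ν k c r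
  | false, r => yt ν k c (2 * k - 1 - r)

/-- the mirrored twists -/
def tt (ν : G) (k : ℕ) (t : ℕ → G) (r : ℕ) : G :=
  if r < k then t r else ν * (t (2 * k - 1 - r))⁻¹ * ν⁻¹

/-- both sequences of twists -/
def ty (ν : G) (k : ℕ) (t : ℕ → G) : Bool → ℕ → G
  | true, r => tt ν k t r
  | false, r => (tt ν k t (2 * k - 1 - r))⁻¹

lemma cc_wf {L : List Y} {x : Y} (hx : ∀ e ∈ L, X.WF e x) (i : ℕ) (hi : i + 1 < 2 * L.length + 1) :
    X.WF (cc L x i) (cc L x (i + 1)) := by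
  unfold cc
  have hmem : ∀ j < L.length, L.getD j x ∈ L := by
    intro j hj
    rw [List.getD_eq_getElem _ _ hj]
    exact List.getElem_mem hj
  rcases Nat.mod_two_eq_zero_or_one i with h | h
  · rw [if_pos h, if_neg (by omega)]
    exact (hx _ (hmem _ (by omega))).symm
  · rw [if_neg (by omega), if_pos (by omega)]
    exact hx _ (hmem _ (by omega))

lemma yt_wf {ν : G} {k : ℕ} {c : ℕ → Y} (hc : ∀ i, i + 1 < k → X.WF (c i) (c (i + 1)))
    (hν : X.WF (c (k - 1)) (ν • c (k - 1))) (r : ℕ) (hr : r + 1 < 2 * k) :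
    X.WF (yt ν k c r) (yt ν k c (r + 1)) := by
  unfold yt
  rcases lt_trichotomy (r + 1) k with h | h | h
  · rw [if_pos (by omega), if_pos h]
    exact hc r h
  · rw [if_pos (by omega), if_neg (by omega)]
    have h1 : r = k - 1 := by omega
    have h2 : 2 * k - 1 - (r + 1) = k - 1 := by omega
    rw [h2, h1]
    exact hν
  · rw [if_neg (by omega), if_neg (by omega)]
    apply WF.smul
    have h1 : 2 * k - 1 - r = (2 * k - 1 - (r + 1)) + 1 := by omega
    rw [h1]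
    exact (hc _ (by omega)).symm

lemma yy_wf {ν : G} {k : ℕ} {c : ℕ → Y} (hc : ∀ i, i + 1 < k → X.WF (c i) (c (i + 1)))
    (hν : X.WF (c (k - 1)) (ν • c (k - 1))) (σ : Bool) (r : ℕ) (hr : r + 1 < 2 * k) :
    X.WF (yy ν k c σ r) (yy ν k c σ (r + 1)) := by
  cases σ with
  | true => exact yt_wf hc hν r hr
  | false =>
    show X.WF (yt ν k c (2 * k - 1 - r)) (yt ν k c (2 * k - 1 - (r + 1)))
    have h1 : 2 * k - 1 - r = (2 * k - 1 - (r + 1)) + 1 := by omega
    rw [h1]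
    exact (yt_wf hc hν _ (by omega)).symm

lemma tt_tw {ν : G} {k M : ℕ} {c : ℕ → Y} {t : ℕ → G} (ht : ∀ i, X.Tw M (c i) (t i)) (r : ℕ) :
    X.Tw M (yt ν k c r) (tt ν k t r) := by
  unfold yt tt
  split_ifs
  · exact ht r
  · exact (ht _).inv.conj ν

lemma ty_tw {ν : G} {k M : ℕ} {c : ℕ → Y} {t : ℕ → G} (ht : ∀ i, X.Tw M (c i) (t i)) (σ : Bool)
    (r : ℕ) : X.Tw M (yy ν k c σ r) (ty ν k t σ r) := by
  cases σ with
  | true => exact tt_tw ht r
  | false => exact (tt_tw ht _).inv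

lemma yy_mem {L : List Y} {x : Y} {ν : G} {e : Y} (he : e ∈ L) (σ : Bool) :
    ∃ r, 0 < r ∧ r + 1 < 2 * (2 * L.length + 1) ∧
      yy ν (2 * L.length + 1) (cc L x) σ r = e := by
  obtain ⟨j, hj, rfl⟩ := List.getElem_of_mem he
  have h1 : yt ν (2 * L.length + 1) (cc L x) (2 * j + 1) = L[j] := by
    unfold yt
    rw [if_pos (by omega)]
    unfold cc
    rw [if_neg (by omega)]
    have h2 : (2 * j + 1) / 2 = j := by omega
    rw [h2, List.getD_eq_getElem _ _ hj]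
  cases σ with
  | true => exact ⟨2 * j + 1, by omega, by omega, h1⟩
  | false =>
    refine ⟨2 * (2 * L.length + 1) - 1 - (2 * j + 1), by omega, by omega, ?_⟩
    show yt ν (2 * L.length + 1) (cc L x) (2 * (2 * L.length + 1) - 1 -
      (2 * (2 * L.length + 1) - 1 - (2 * j + 1))) = L[j]
    have h2 : 2 * (2 * L.length + 1) - 1 - (2 * (2 * L.length + 1) - 1 - (2 * j + 1)) =
        2 * j + 1 := by omega
    rw [h2]
    exact h1

lemma wf_gd (b : X.Base) {y y' : Y} (h : X.WF y y') : ∃ K, Gd b K y 1 y' := by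
  refine ⟨X.d y ((1 : G) • y') (pt b y 1) + X.d y' ((1 : G)⁻¹ • y) (pt b y' 1), ?_, ?_, ?_⟩
  · rw [one_smul]
    exact h.cr
  · exact Nat.le_add_right _ _
  · exact Nat.le_add_left _ _

end PkgAux

theorem exists_pkg (F : X.Full) (N : Subgroup G) [N.Normal]
    (hN : ∃ ν ∈ N, ∃ e, X.cr e (ν • e)) (B₀ L₀ : ℕ) : Nonempty (NPkg F.toBase N B₀ L₀) := by
  classical
  obtain ⟨ν₀, hν₀, y₀, hy₀⟩ := hN
  have hN' : ∃ ν ∈ N, ∃ e, X.cr e (ν • e) := ⟨ν₀, hν₀, y₀, hy₀⟩
  obtain ⟨f', _, hf'⟩ := sep_N F N hN' F.L.toFinset {y₀}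
  set x : Y := f' • y₀ with hx
  have hxL : ∀ e ∈ F.L, X.WF e x := fun e he =>
    hf' e (List.mem_toFinset.mpr he) y₀ (Finset.mem_singleton_self _)
  obtain ⟨ν, hνN, hν⟩ := sep_N F N hN' {x} {x}
  have hνx : X.WF x (ν • x) := hν x (Finset.mem_singleton_self _) x (Finset.mem_singleton_self _)
  set k : ℕ := 2 * F.L.length + 1 with hk
  set c : ℕ → Y := PkgAux.cc F.L x with hc
  have hck : c (k - 1) = x := by
    rw [hc]
    unfold PkgAux.cc
    rw [if_pos (by omega)]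
  have hcw : ∀ i, i + 1 < k → X.WF (c i) (c (i + 1)) := fun i hi => PkgAux.cc_wf hxL i hi
  have hνk : X.WF (c (k - 1)) (ν • c (k - 1)) := by
    rw [hck]
    exact hνx
  have hyw : ∀ σ r, r + 1 < 2 * k → X.WF (PkgAux.yy ν k c σ r) (PkgAux.yy ν k c σ (r + 1)) :=
    fun σ r hr => PkgAux.yy_wf hcw hνk σ r hr
  have hmem : ∀ σ, ∀ e ∈ F.L, ∃ r, 0 < r ∧ r + 1 < 2 * k ∧ PkgAux.yy ν k c σ r = e :=
    fun σ e he => PkgAux.yy_mem he σ
  have hdec := fun σ => decode_finite F.toBase (PkgAux.yy ν k c σ) (hyw σ) (hmem σ)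
  choose M₀ hM₀ using hdec
  have hgd : ∀ σ r, ∃ K, r + 1 < 2 * k →
      Gd F.toBase K (PkgAux.yy ν k c σ r) 1 (PkgAux.yy ν k c σ (r + 1)) := by
    intro σ r
    by_cases hr : r + 1 < 2 * k
    · obtain ⟨K, hK⟩ := PkgAux.wf_gd F.toBase (hyw σ r hr)
      exact ⟨K, fun _ => hK⟩
    · exact ⟨0, fun h => absurd h hr⟩
  choose Kf hKf using hgd
  obtain ⟨P, K₁, hPN, hP⟩ := adjust F N hN' (PkgAux.yy ν k c true (2 * k - 1))
    (PkgAux.yy ν k c true 0)
  obtain ⟨P', K₂, hPN', hP'⟩ := adjust F N hN' (PkgAux.yy ν k c true (2 * k - 1))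
    (PkgAux.yy ν k c false 0)
  obtain ⟨h₁, hh₁, h₂, hh₂, hgm⟩ := hP' 1
  set K : ℕ := X.κ + (∑ r ∈ Finset.range (2 * k), (Kf true r + Kf false r)) + K₁ + K₂ with hK
  set M : ℕ := 2 * L₀ + 2 * K + 2 * B₀ + 10 * X.κ + 1 + M₀ true + M₀ false with hM
  set t₀ : ℕ → G := fun i => F.T (c i) ^ (M : ℤ) with ht₀
  have htw₀ : ∀ i, X.Tw M (c i) (t₀ i) := by
    intro i
    have h1 := F.tw (c i) (M : ℤ)
    rwa [Int.natAbs_natCast] at h1
  have hfin : ∀ σ, {Δ : G | ∀ r < 2 * k, ¬ X.cr (Pr (PkgAux.ty ν k t₀ σ) r • PkgAux.yy ν k c σ r)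
      (Δ • Pr (PkgAux.ty ν k t₀ σ) r • PkgAux.yy ν k c σ r)}.Finite := by
    intro σ
    refine hM₀ σ M ?_ (PkgAux.ty ν k t₀ σ) fun r _ => PkgAux.ty_tw htw₀ σ r
    cases σ with
    | true => omega
    | false => omega
  have hKle : ∀ σ r, r + 1 < 2 * k → Kf σ r ≤ K := by
    intro σ r hr
    have h1 : Kf true r + Kf false r ≤ ∑ r ∈ Finset.range (2 * k), (Kf true r + Kf false r) :=
      Finset.single_le_sum (f := fun r => Kf true r + Kf false r) (fun _ _ => Nat.zero_le _)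
        (Finset.mem_range.mpr (by omega))
    cases σ with
    | true => omega
    | false => omega
  have hprod : Pr (PkgAux.ty ν k t₀ true) (2 * k) =
      Pr (PkgAux.ty ν k t₀ true) k * (ν * (Pr (PkgAux.ty ν k t₀ true) k)⁻¹ * ν⁻¹) := by
    apply mirror
    intro i hi
    show PkgAux.tt ν k t₀ (k + i) = ν * (PkgAux.tt ν k t₀ (k - 1 - i))⁻¹ * ν⁻¹
    unfold PkgAux.tt
    rw [if_neg (by omega), if_pos (by omega)]
    have h1 : 2 * k - 1 - (k + i) = k - 1 - i := by omega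
    rw [h1]
  refine ⟨{
    q := 2 * k
    hq := by omega
    y := PkgAux.yy ν k c
    t := PkgAux.ty ν k t₀
    K := K
    M := M
    C := max
      ({Δ : G | ∀ r < 2 * k, ¬ X.cr (Pr (PkgAux.ty ν k t₀ true) r • PkgAux.yy ν k c true r)
        (Δ • Pr (PkgAux.ty ν k t₀ true) r • PkgAux.yy ν k c true r)}.ncard)
      ({Δ : G | ∀ r < 2 * k, ¬ X.cr (Pr (PkgAux.ty ν k t₀ false) r • PkgAux.yy ν k c false r)
        (Δ • Pr (PkgAux.ty ν k t₀ false) r • PkgAux.yy ν k c false r)}.ncard)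
    hκ := by omega
    hM := by omega
    tw := fun σ r _ => PkgAux.ty_tw htw₀ σ r
    gd := fun σ r hr => (hKf σ r hr).mono (hKle σ r hr)
    dec := hfin
    dec_card := fun σ => by
      cases σ with
      | true => exact le_max_left _ _
      | false => exact le_max_right _ _
    fp := Pr (PkgAux.ty ν k t₀ true) (2 * k)
    fp_mem := by
      rw [hprod]
      have h1 : Pr (PkgAux.ty ν k t₀ true) k * (ν * (Pr (PkgAux.ty ν k t₀ true) k)⁻¹ * ν⁻¹) =
          Pr (PkgAux.ty ν k t₀ true) k * ν * (Pr (PkgAux.ty ν k t₀ true) k)⁻¹ * ν⁻¹ := by group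
      rw [h1]
      exact N.mul_mem (Subgroup.Normal.conj_mem inferInstance ν hνN _) (N.inv_mem hνN)
    fp_eq := rfl
    fm_eq := pr_reverse _ _ _ fun r _ => rfl
    yf0 := rfl
    yfl := by
      show PkgAux.yt ν k c (2 * k - 1 - (2 * k - 1)) = PkgAux.yt ν k c 0
      rw [Nat.sub_self]
    P := P
    P_mem := hPN
    adj := fun a => by
      obtain ⟨h, hh, h', hh', hg⟩ := hP a
      exact ⟨h, hh, h', hh', hg.mono (by omega)⟩
    hm := h₁ * 1 * h₂
    hm_mem := N.mul_mem (N.mul_mem (hPN' _ hh₁) N.one_mem) (hPN' _ hh₂)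
    hm_gd := hgm.mono (by omega) }⟩

end Sys

end Pool.JohD
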