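import Pool.Agent.JohD.Def

/-!
# MODULE JohD/Pt (projections of group elements; abstract part, easy)

Elementary facts about curve systems (`Def.lean`). Proofs:

* `pt_cr`: `pt b y g = g • b.ε (g⁻¹ • y)`; by `ε_cr`, `cr (g⁻¹ • y) (ε (g⁻¹ • y))`; apply `cr_smul g`.
* `pt_smul`: `(h * g)⁻¹ • h • y = g⁻¹ • y`.
* `dd_*`: from `d_smul`, `d_tri`, `d_symm`, `d_self` and `pt_cr`.
* `exists_B0`: `bdd` for the finitely many pairs `(e, e')` of members of the list `L`.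
* `exists_step`: `dd b y g (g * s) = d (g⁻¹ • y) (ε (g⁻¹ • y)) (s • ε (s⁻¹ • g⁻¹ • y))` by `d_smul`; both
  curves lie in the finite set `L ∪ S • L` and cross `g⁻¹ • y`, so `bdd` for the finitely many pairs
  gives one bound.
* `beh_pt`: let `u = pt b y g = g • e`, `e ∈ L`, and `κ < d y z u`. Then `cr z u` by `d_cr` (applied to
  `y, z, u`), so `beh` gives `d z y u ≤ κ`. The curve `pt b z g = g • e'` also crosses `z`, and
  `d z (g • e) (g • e') = d (g⁻¹ • z) e e' ≤ B₀`. Hence `d z y (pt b z g) ≤ κ + B₀ + κ`.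
* `Tw.mono`: trivial. `Tw.inv`: `t⁻¹ • y = y`; `t⁻¹ • u = u` if `t • u = u`;
  `d y u (t⁻¹ • v) = d (t • y) (t • u) (t • t⁻¹ • v) = d y (t • u) v = d y v (t • u)`, and
  `M ≤ d y v (t • u) + d y v u + κ`; commutation is clear.
* `Tw.conj`: transport everything by `g`: for `u`, put `u' = g⁻¹ • u`; `cr (g • y) u ↔ cr y u'`, etc.
  (`d (g • y) u ((g * t * g⁻¹) • v) = d y u' (t • v')`). For `comm`: if `h • g • y = g • y` then
  `g⁻¹ * h * g` fixes `y`.
* `Tw.pt_mul`: `pt b y (t * g) = pt b (t • y) (t * g) = t • pt b y g`.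
* `WF.*`: `WF p q → cr p q`: take `y = p` in the definition, `cr p p` is false.
-/

set_option autoImplicit false

namespace Pool.JohD

namespace Sys

variable {G Y : Type} [Group G] [MulAction G Y] {X : Sys G Y} (b : X.Base)

theorem pt_cr (y : Y) (g : G) : X.cr y (pt b y g) := by
  have h := (X.cr_smul g _ _).2 (b.ε_cr (g⁻¹ • y))
  rw [smul_inv_smul] at h
  exact h

theorem pt_smul (h : G) (y : Y) (g : G) : pt b (h • y) (h * g) = h • pt b y g := by
  have h1 : (h * g)⁻¹ • h • y = g⁻¹ • y := by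
    rw [mul_inv_rev, mul_smul, inv_smul_smul]
  rw [pt, pt, h1, mul_smul]

theorem dd_smul (h : G) (y : Y) (g g' : G) : dd b (h • y) (h * g) (h * g') = dd b y g g' := by
  rw [dd, dd, pt_smul, pt_smul, X.d_smul]

theorem dd_symm (y : Y) (g g' : G) : dd b y g g' = dd b y g' g := X.d_symm _ _ _

theorem dd_self (y : Y) (g : G) : dd b y g g ≤ X.κ := X.d_self _ _ (pt_cr b y g)

theorem dd_tri (y : Y) (g h k : G) : dd b y g k ≤ dd b y g h + dd b y h k + X.κ :=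
  X.d_tri _ _ _ _ (pt_cr b y g) (pt_cr b y h) (pt_cr b y k)

theorem exists_B0 : ∃ B₀ : ℕ, ∀ y, ∀ e ∈ b.L, ∀ e' ∈ b.L, X.cr y e → X.cr y e' → X.d y e e' ≤ B₀ := by
  classical
  choose B hB using fun u v : Y => X.bdd u v
  refine ⟨(b.L.toFinset ×ˢ b.L.toFinset).sup (fun p => B p.1 p.2), ?_⟩
  intro y e he e' he' h1 h2
  refine (hB e e' y h1 h2).trans ?_
  exact Finset.le_sup (f := fun p : Y × Y => B p.1 p.2) (b := (e, e'))
    (Finset.mem_product.2 ⟨List.mem_toFinset.2 he, List.mem_toFinset.2 he'⟩)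

theorem dd_step (y : Y) (g s : G) : dd b y g (g * s) =
    X.d (g⁻¹ • y) (b.ε (g⁻¹ • y)) (s • b.ε (s⁻¹ • g⁻¹ • y)) := by
  have h1 : dd b y g (g * s) = dd b (g • g⁻¹ • y) (g * 1) (g * s) := by
    rw [smul_inv_smul, mul_one]
  rw [h1, dd_smul, dd, pt, pt, inv_one, one_smul, one_smul]

theorem exists_step (S : Set G) (hS : S.Finite) :
    ∃ B : ℕ, ∀ s ∈ S, ∀ (y : Y) (g : G), dd b y g (g * s) ≤ B := by
  classical
  choose B hB using fun u v : Y => X.bdd u v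
  refine ⟨(b.L.toFinset ×ˢ (b.L.toFinset ×ˢ hS.toFinset)).sup
    (fun p => B p.1 (p.2.2 • p.2.1)), ?_⟩
  intro s hs y g
  rw [dd_step]
  refine (hB _ _ _ (b.ε_cr _) (pt_cr b (g⁻¹ • y) s)).trans ?_
  exact Finset.le_sup (f := fun p : Y × (Y × G) => B p.1 (p.2.2 • p.2.1))
    (b := (b.ε (g⁻¹ • y), (b.ε (s⁻¹ • g⁻¹ • y), s)))
    (Finset.mem_product.2 ⟨List.mem_toFinset.2 (b.ε_mem _),
      Finset.mem_product.2 ⟨List.mem_toFinset.2 (b.ε_mem _), hS.mem_toFinset.2 hs⟩⟩)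

theorem beh_pt {B₀ : ℕ}
    (hB₀ : ∀ y, ∀ e ∈ b.L, ∀ e' ∈ b.L, X.cr y e → X.cr y e' → X.d y e e' ≤ B₀)
    {y z : Y} {g : G} (hyz : X.cr y z) (h : X.κ < X.d y z (pt b y g)) :
    X.d z y (pt b z g) ≤ 2 * X.κ + B₀ := by
  have h1 := pt_cr b y g
  have h2 : X.cr z (pt b y g) := X.d_cr y z _ hyz h1 h
  have h3 := X.beh y z _ hyz h1 h2 h
  have h4 := pt_cr b z g
  have h5 : X.d z (pt b y g) (pt b z g) ≤ B₀ := by
    have e1 : X.d z (pt b y g) (pt b z g) =
        X.d (g⁻¹ • z) (b.ε (g⁻¹ • y)) (b.ε (g⁻¹ • z)) := by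
      rw [← X.d_smul g (g⁻¹ • z), smul_inv_smul]
      rfl
    rw [e1]
    apply hB₀ _ _ (b.ε_mem _) _ (b.ε_mem _)
    · rw [← X.cr_smul g, smul_inv_smul]
      exact h2
    · exact b.ε_cr _
  have h6 := X.d_tri z y (pt b y g) (pt b z g) (X.cr_symm hyz) h2 h4
  omega

theorem Tw.mono {M M' : ℕ} {y : Y} {t : G} (h : X.Tw M y t) (hM : M' ≤ M) : X.Tw M' y t :=
  ⟨h.fix, h.triv, fun u v hu hv => hM.trans (h.big u v hu hv), h.comm⟩

theorem Tw.inv {M : ℕ} {y : Y} {t : G} (h : X.Tw M y t) : X.Tw M y t⁻¹ := by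
  refine ⟨?_, ?_, ?_, ?_⟩
  · rw [inv_smul_eq_iff, h.fix]
  · intro u hu
    rw [inv_smul_eq_iff, h.triv u hu]
  · intro u v hu hv
    have h1 := h.big v u hv hu
    have h2 : X.d y u (t⁻¹ • v) = X.d y v (t • u) := by
      rw [← X.d_smul t y u, h.fix, smul_inv_smul, X.d_symm]
    rw [h2, X.d_symm y u v]
    exact h1
  · intro g hg
    have h1 := h.comm g hg
    rw [eq_inv_mul_iff_mul_eq, ← mul_assoc, ← h1, mul_assoc, mul_inv_cancel, mul_one]

theorem Tw.conj {M : ℕ} {y : Y} {t : G} (h : X.Tw M y t) (g : G) :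
    X.Tw M (g • y) (g * t * g⁻¹) := by
  refine ⟨?_, ?_, ?_, ?_⟩
  · rw [mul_smul, mul_smul, inv_smul_smul, h.fix]
  · intro u hu
    have h1 : ¬ X.cr y (g⁻¹ • u) := by
      intro h2
      apply hu
      rw [← X.cr_smul g, smul_inv_smul] at h2
      exact h2
    rw [mul_smul, mul_smul, h.triv _ h1, smul_inv_smul]
  · intro u v hu hv
    have hu' : X.cr y (g⁻¹ • u) := by
      rw [← X.cr_smul g, smul_inv_smul]
      exact hu
    have hv' : X.cr y (g⁻¹ • v) := by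
      rw [← X.cr_smul g, smul_inv_smul]
      exact hv
    have h1 := h.big _ _ hu' hv'
    have h2 : X.d y (g⁻¹ • u) (t • g⁻¹ • v) = X.d (g • y) u ((g * t * g⁻¹) • v) := by
      rw [← X.d_smul g y, smul_inv_smul, mul_smul, mul_smul]
    have h3 : X.d y (g⁻¹ • u) (g⁻¹ • v) = X.d (g • y) u v := by
      rw [← X.d_smul g y, smul_inv_smul, smul_inv_smul]
    rw [h2, h3] at h1
    exact h1
  · intro k hk
    have h1 : (g⁻¹ * k * g) • y = y := by
      rw [mul_smul, mul_smul, hk, inv_smul_smul]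
    have h2 := h.comm _ h1
    calc k * (g * t * g⁻¹) = g * ((g⁻¹ * k * g) * t) * g⁻¹ := by group
      _ = g * (t * (g⁻¹ * k * g)) * g⁻¹ := by rw [h2]
      _ = g * t * g⁻¹ * k := by group

theorem Tw.pt_mul {M : ℕ} {y : Y} {t : G} (h : X.Tw M y t) (g : G) :
    pt b y (t * g) = t • pt b y g := by
  have h1 := pt_smul b t y g
  rw [h.fix] at h1
  exact h1

theorem WF.symm {p q : Y} (h : X.WF p q) : X.WF q p := fun y => (h y).symm

theorem WF.smul {p q : Y} (h : X.WF p q) (g : G) : X.WF (g • p) (g • q) := by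
  intro y
  rcases h (g⁻¹ • y) with h1 | h1
  · left
    rw [← X.cr_smul g, smul_inv_smul] at h1
    exact h1
  · right
    rw [← X.cr_smul g, smul_inv_smul] at h1
    exact h1

theorem WF.cr {p q : Y} (h : X.WF p q) : X.cr p q := by
  rcases h p with h1 | h1
  · exact absurd h1 (X.cr_irr p)
  · exact h1

end Sys

end Pool.JohD
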