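import Pool.Agent.JohD.Pt

/-!
# MODULE JohD/WfTwist (products of large twists about a filling chain; abstract part)

`Pr t n = t 0 * ... * t (n-1)`.

`wf_twist`. Put `u i = Pr t i`, `z i = u i • x i`, `w = Pr t n • q`, and `v i = (u i)⁻¹ • w`
(so `v n = q`, `v i = t i • v (i+1)` for `i < n`).

Right claim (R_i), `i < n`: `cr (x i) (v (i+1))` and `d (x i) (v (i+1)) (ρ i) ≤ κ`, where `ρ i = x (i+1)` for
`i + 1 < n` and `ρ (n-1) = q`. For `i = n-1`: `v n = q`, `d_self`. From `i+1` to `i`: by `Tw.big` for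
`t (i+1)`, with `x' = x (i+1)`: `M ≤ d x' (x i) (v (i+1)) + d x' (x i) (v (i+2)) + κ` and
`d x' (x i) (v (i+2)) ≤ d x' (x i) (ρ (i+1)) + κ + κ`. So for `M ≥ M₀` (with
`M₀ > 4 κ + d x' (x i) (ρ (i+1))`), `d x' (x i) (v (i+1)) > κ`. `cr x' (v (i+1))` (`t (i+1)` fixes `x'`).
So `cr (x i) (v (i+1))` (`d_cr`) and `d (x i) x' (v (i+1)) ≤ κ` (`beh`).

Left claim (L_i), `i < n`: `cr (x i) ((u i)⁻¹ • p)` and `d (x i) ((u i)⁻¹ • p) (λ i) ≤ κ`, where
`λ 0 = p` and `λ i = x (i-1)` for `i ≥ 1`. Same proof: `(u (i+1))⁻¹ • p = (t i)⁻¹ • (u i)⁻¹ • p`, use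
`Tw.inv` for `t i`: `d (x i) (x (i+1)) ((u (i+1))⁻¹ • p) ≥ M - κ - d (x i) (x (i+1)) ((u i)⁻¹ • p)
≥ M - 3 κ - d (x i) (x (i+1)) (λ i) > κ`, so `cr (x (i+1)) ((u (i+1))⁻¹ • p)` and
`d (x (i+1)) (x i) ((u (i+1))⁻¹ • p) ≤ κ`.

Conclusion: `cr (z i) p`, `cr (z i) w` and `d (z i) p w = d (x i) ((u i)⁻¹ • p) (t i • v (i+1))
≥ M - κ - d (x i) ((u i)⁻¹ • p) (v (i+1)) ≥ M - κ - (κ + κ + d (x i) (λ i) (ρ i) + κ + κ) > 3 κ` for
`M ≥ M₀`, `M₀ = 9 κ + 1 + ` (the maximum of all the finitely many numbers `d (x i) (a) (b)`, with `i < n`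
and `a, b ∈ {p, q, x 0, ..., x (n-1)}`).

`WF p w`: let `y` cross neither `p` nor `w`. If `cr y (z i)` for some `i < n`, then `d (z i) y p ≤ κ` and
`d (z i) y w ≤ κ` (`d_cr`), so `d (z i) p w ≤ 3 κ`, contradiction. So `¬ cr y (z i)` for all `i < n`. By
induction on `i ≤ n`: `u i • y = y`: `¬ cr y (u i • x i)` and `u i • y = y` give `¬ cr y (x i)`, so
`t i • y = y` (`Tw.triv`) and `u (i+1) • y = u i • t i • y = y`. In particular `¬ cr y (x i)` for all `i < n`,
contradicting `hfill`.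
-/

namespace Pool.JohD

namespace Sys

variable {G Y : Type} [Group G] [MulAction G Y] {X : Sys G Y}

/-- `t 0 * ... * t (n-1)`. -/
def Pr (t : ℕ → G) : ℕ → G
  | 0 => 1
  | n + 1 => Pr t n * t n

theorem wf_twist {n : ℕ} (hn : 0 < n) (x : ℕ → Y) (hx : ∀ i, i + 1 < n → X.cr (x i) (x (i + 1)))
    (hfill : ∀ y, ∃ i < n, X.cr y (x i)) (p q : Y) (hp : X.cr (x 0) p) (hq : X.cr (x (n - 1)) q) :
    ∃ M₀ : ℕ, ∀ M ≥ M₀, ∀ t : ℕ → G, (∀ i < n, X.Tw M (x i) (t i)) → X.WF p (Pr t n • q) := by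
  classical
  let lm : ℕ → Y := fun i => if i = 0 then p else x (i - 1)
  let rh : ℕ → Y := fun i => if i + 1 < n then x (i + 1) else q
  set D : ℕ := ∑ i ∈ Finset.range n, X.d (x i) (lm i) (rh i) with hD
  have hDi : ∀ i < n, X.d (x i) (lm i) (rh i) ≤ D := by
    intro i hi
    exact Finset.single_le_sum (f := fun i => X.d (x i) (lm i) (rh i)) (fun _ _ => Nat.zero_le _)
      (Finset.mem_range.mpr hi)
  have hlm : ∀ i < n, X.cr (x i) (lm i) := by
    intro i hi
    by_cases h0 : i = 0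
    · subst h0
      simpa [lm] using hp
    · have h1 := hx (i - 1) (by omega)
      rw [Nat.sub_add_cancel (by omega)] at h1
      simp only [lm, if_neg h0]
      exact X.cr_symm h1
  have hrh : ∀ i < n, X.cr (x i) (rh i) := by
    intro i hi
    by_cases h0 : i + 1 < n
    · simp only [rh, if_pos h0]
      exact hx i h0
    · have h1 : i = n - 1 := by omega
      simp only [rh, if_neg h0]
      rw [h1]
      exact hq
  refine ⟨9 * X.κ + 1 + D, fun M hM t ht => ?_⟩
  set w : Y := Pr t n • q with hw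
  let a : ℕ → Y := fun i => (Pr t i)⁻¹ • p
  let b : ℕ → Y := fun i => (Pr t i)⁻¹ • w
  have ha0 : a 0 = p := by simp [a, Pr]
  have ha1 : ∀ i, a (i + 1) = (t i)⁻¹ • a i := by
    intro i
    simp only [a, Pr, mul_inv_rev, mul_smul]
  have hbn : b n = q := by simp [b, hw]
  have hb1 : ∀ i, b i = t i • b (i + 1) := by
    intro i
    simp only [b, Pr, mul_inv_rev, mul_smul, smul_inv_smul]
  -- right claim
  have hR : ∀ k i, i + 1 + k = n → X.cr (x i) (b (i + 1)) ∧ X.d (x i) (b (i + 1)) (rh i) ≤ X.κ := by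
    intro k
    induction k with
    | zero =>
      intro i hi
      have h1 : i = n - 1 := by omega
      have h2 : rh i = q := by simp only [rh, if_neg (show ¬ i + 1 < n by omega)]
      have h3 : b (i + 1) = q := by rw [show i + 1 = n by omega, hbn]
      rw [h2, h3, h1]
      exact ⟨hq, X.d_self _ _ hq⟩
    | succ k ih =>
      intro i hi
      obtain ⟨c1, c2⟩ := ih (i + 1) (by omega)
      have hi1 : i + 1 < n := by omega
      have hT := ht (i + 1) hi1
      have hcx : X.cr (x (i + 1)) (x i) := X.cr_symm (hx i hi1)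
      have h1 := hT.big (x i) (b (i + 1 + 1)) hcx c1
      rw [← hb1 (i + 1)] at h1
      have hlx : lm (i + 1) = x i := by simp [lm]
      have h2 := X.d_tri (x (i + 1)) (x i) (rh (i + 1)) (b (i + 1 + 1)) hcx (hrh _ hi1) c1
      have h3 := hDi (i + 1) hi1
      rw [hlx] at h3
      rw [X.d_symm] at c2
      have h4 : X.κ < X.d (x (i + 1)) (x i) (b (i + 1)) := by omega
      have h5 : X.cr (x (i + 1)) (b (i + 1)) := by
        have h6 := (X.cr_smul (t (i + 1)) (x (i + 1)) (b (i + 1 + 1))).mpr c1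
        rwa [hT.fix, ← hb1 (i + 1)] at h6
      have h7 := X.d_cr _ _ _ hcx h5 h4
      have h8 := X.beh _ _ _ hcx h5 h7 h4
      refine ⟨h7, ?_⟩
      have h9 : rh i = x (i + 1) := by simp only [rh, if_pos hi1]
      rw [h9, X.d_symm]
      exact h8
  -- left claim
  have hL : ∀ i < n, X.cr (x i) (a i) ∧ X.d (x i) (a i) (lm i) ≤ X.κ := by
    intro i
    induction i with
    | zero =>
      intro hi
      have h2 : lm 0 = p := by simp [lm]
      rw [h2, ha0]
      exact ⟨hp, X.d_self _ _ hp⟩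
    | succ i ih =>
      intro hi1
      have hi : i < n := by omega
      obtain ⟨c1, c2⟩ := ih hi
      have hT := Tw.inv (ht i hi)
      have hcx : X.cr (x i) (x (i + 1)) := hx i hi1
      have h1 := hT.big (x (i + 1)) (a i) hcx c1
      rw [← ha1 i] at h1
      have hrx : rh i = x (i + 1) := by simp only [rh, if_pos hi1]
      have h2 := X.d_tri (x i) (x (i + 1)) (lm i) (a i) hcx (hlm _ hi) c1
      have h3 := hDi i hi
      rw [hrx, X.d_symm] at h3
      rw [X.d_symm] at c2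
      have h4 : X.κ < X.d (x i) (x (i + 1)) (a (i + 1)) := by omega
      have h5 : X.cr (x i) (a (i + 1)) := by
        have h6 := (X.cr_smul ((t i)⁻¹) (x i) (a i)).mpr c1
        rwa [hT.fix, ← ha1 i] at h6
      have h7 := X.d_cr _ _ _ hcx h5 h4
      have h8 := X.beh _ _ _ hcx h5 h7 h4
      refine ⟨h7, ?_⟩
      have h9 : lm (i + 1) = x i := by simp [lm]
      rw [h9, X.d_symm]
      exact h8
  -- the projections to `z i`
  have hz : ∀ i < n, X.cr (Pr t i • x i) p ∧ X.cr (Pr t i • x i) w ∧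
      3 * X.κ < X.d (Pr t i • x i) p w := by
    intro i hi
    obtain ⟨c1, c2⟩ := hL i hi
    obtain ⟨e1, e2⟩ := hR (n - (i + 1)) i (by omega)
    have hT := ht i hi
    have f1 : X.cr (x i) (b i) := by
      have h6 := (X.cr_smul (t i) (x i) (b (i + 1))).mpr e1
      rwa [hT.fix, ← hb1 i] at h6
    have g1 : Pr t i • a i = p := by simp [a]
    have g2 : Pr t i • b i = w := by simp [b]
    have f2 := hT.big (a i) (b (i + 1)) c1 e1
    rw [← hb1 i] at f2
    have f3 := X.d_tri (x i) (a i) (lm i) (b (i + 1)) c1 (hlm i hi) e1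
    have f4 := X.d_tri (x i) (lm i) (rh i) (b (i + 1)) (hlm i hi) (hrh i hi) e1
    have f5 := hDi i hi
    rw [X.d_symm (x i) (b (i + 1)) (rh i)] at e2
    have k1 := (X.cr_smul (Pr t i) (x i) (a i)).mpr c1
    have k2 := (X.cr_smul (Pr t i) (x i) (b i)).mpr f1
    have k3 := X.d_smul (Pr t i) (x i) (a i) (b i)
    rw [g1] at k1 k3
    rw [g2] at k2 k3
    refine ⟨k1, k2, ?_⟩
    rw [k3]
    omega
  intro y
  by_contra hcon
  push Not at hcon
  obtain ⟨n1, n2⟩ := hcon
  have hyz : ∀ i < n, ¬ X.cr y (Pr t i • x i) := by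
    intro i hi hc
    obtain ⟨k1, k2, k3⟩ := hz i hi
    have hc' := X.cr_symm hc
    have l1 : X.d (Pr t i • x i) y p ≤ X.κ := by
      by_contra hh
      push Not at hh
      exact n1 (X.d_cr _ _ _ hc' k1 hh)
    have l2 : X.d (Pr t i • x i) y w ≤ X.κ := by
      by_contra hh
      push Not at hh
      exact n2 (X.d_cr _ _ _ hc' k2 hh)
    have l3 := X.d_tri (Pr t i • x i) p y w k1 hc' k2
    rw [X.d_symm _ p y] at l3
    omega
  have hfix : ∀ i ≤ n, Pr t i • y = y := by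
    intro i
    induction i with
    | zero =>
      intro _
      simp [Pr]
    | succ i ih =>
      intro hi
      have hi' : i < n := by omega
      have h1 := ih hi'.le
      have h2 := hyz i hi'
      have h3 : ¬ X.cr (x i) y := by
        intro h
        apply h2
        have h4 := (X.cr_smul (Pr t i) (x i) y).mpr h
        rw [h1] at h4
        exact X.cr_symm h4
      rw [Pr, mul_smul, (ht i hi').triv y h3, h1]
  obtain ⟨i, hi, hc⟩ := hfill y
  apply hyz i hi
  have h4 := (X.cr_smul (Pr t i) y (x i)).mpr hc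
  rwa [hfix i hi.le] at h4

end Sys

end Pool.JohD
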