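import Pool.Agent.JohD.Cross
import Pool.Agent.JohD.WfTwist

/-!
# MODULE JohD/SepN (filling translates by elements of a normal subgroup; abstract part)

`N` is a normal subgroup containing `ν` with `cr e (ν • e)`.

`sep_N`. If `V` is empty take `f = 1`; otherwise there is a curve. By `Cross.all_cross` choose `x` crossing
all members of `U ∪ ν⁻¹ • V`. By `Cross.exists_path F x e` there is `l` with
`c := x :: (l ++ [e])` a chain containing all members of `L`. Let `k + 1` be its length and write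
`c 0 = x, ..., c k = e`. The sequence `z` of length `n = 2 (k+1)`: `z i = c i` for `i ≤ k`,
`z (k + 1 + i) = ν • c (k - i)` for `i ≤ k`. Consecutive members cross (`z k = e`, `z (k+1) = ν • e`), every
curve `y` crosses `ε y ∈ L`, a member of the sequence. For `u ∈ U`, `v ∈ V`: `x = z 0` crosses `u`, and
`z (n-1) = ν • x` crosses `v`. Take the maximum `M` of the numbers `M₀` of `wf_twist` over the finitely
many pairs `(u, v)`, and `t i = T (c i) ^ (M : ℤ)` for `i ≤ k`, `t (k+1+i) = ν * (t (k-i))⁻¹ * ν⁻¹`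
(`Tw.inv`, `Tw.conj`). With `τ = Pr t (k+1)` we get `f := Pr t n = τ * (ν * τ⁻¹ * ν⁻¹) = (τ * ν * τ⁻¹) * ν⁻¹ ∈ N`.

`mirror`: the general fact about products of mirrored sequences used here (and later):
if `t (k + i) = ν * (t (k - 1 - i))⁻¹ * ν⁻¹` for `i < k` then `Pr t (2 k) = Pr t k * (ν * (Pr t k)⁻¹ * ν⁻¹)`.
Proof: by induction on `j ≤ k`, `Pr t (k + j) = Pr t k * (ν * ((Pr t k)⁻¹ * Pr t (k - j)) * ν⁻¹)`, as
`Pr t (k - j) = Pr t (k - j - 1) * t (k - j - 1)`.

`many`: induction on `n`: given `f 0, ..., f (n-1)`, apply `sep_N` to `U = {f i • y | i < n}`, `V = {y}`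
(and use `WF.symm`); no two equal indices are compared.
-/

namespace Pool.JohD

namespace Sys

variable {G Y : Type} [Group G] [MulAction G Y] {X : Sys G Y}

theorem mirror (t : ℕ → G) (ν : G) (k : ℕ)
    (h : ∀ i < k, t (k + i) = ν * (t (k - 1 - i))⁻¹ * ν⁻¹) :
    Pr t (2 * k) = Pr t k * (ν * (Pr t k)⁻¹ * ν⁻¹) := by
  sorry

theorem sep_N (F : X.Full) (N : Subgroup G) [N.Normal] (hN : ∃ ν ∈ N, ∃ e, X.cr e (ν • e))
    (U V : Finset Y) : ∃ f ∈ N, ∀ u ∈ U, ∀ v ∈ V, X.WF u (f • v) := by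
  sorry

theorem many (F : X.Full) (N : Subgroup G) [N.Normal] (hN : ∃ ν ∈ N, ∃ e, X.cr e (ν • e))
    (y : Y) (n : ℕ) :
    ∃ f : ℕ → G, (∀ i < n, f i ∈ N) ∧ ∀ i < n, ∀ j < n, i ≠ j → X.WF (f i • y) (f j • y) := by
  sorry

end Sys

end Pool.JohD
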