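import Pool.Agent.JohD.Count

/-!
# MODULE JohD/Tup (commutator shaped words; abstract part)

`P : NPkg b N B₀ L₀`, `f = P.fp`. For lists, `U P [] = f`, `U P (x :: l) = f * (x * U P l)`; so
`U P [α₁, ..., α_k] = f α₁ f α₂ f ... α_k f`. `GdT P x`: `x` is good between the last and the first curve of
the block `true`.

`tupSeq P α β i` is the `i`-th member of the list `1 :: (α ++ hm :: (β.map inv).reverse)` (`getD i 1`).
If `α, β` have length `k`, this list has length `2 k + 2`. With `σ i = decide (i ≤ k)`: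

* `word_tup`: `word P.toPkg (tupSeq P α β) σ (2 k + 2) = U P α * P.hm * (U P β)⁻¹`. Proof: the first `k + 1`
  factors are `1 * f`, `α_i * f`, product `U P α`; the last `k + 1` factors are `hm * f⁻¹` and
  `β_i⁻¹ * f⁻¹` for `i = k, ..., 1`, and `(U P β)⁻¹ = f⁻¹ β_k⁻¹ f⁻¹ ... β_1⁻¹ f⁻¹`. (A convenient general
  lemma: `word P a σ m` for `a i = l.getD i 1` is the product of the list obtained by zipping.)
* `ok_tup`: `Ok`: consecutive blocks `true, true` are separated by `α_i`, good by assumption; `true, false`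
  by `hm` (`hm_gd`); `false, false` by `β_i⁻¹`, good between `y false (q-1) = y true 0` and
  `y false 0 = y true (q-1)` by `Gd.inv`.

* `count_pairs`: the map `(α, β) ↦ tupSeq P α β` is injective on pairs of lists of length `k`, with values
  in the set of `count_words` for `m = 2 k + 2`.
-/

namespace Pool.JohD

namespace Sys

variable {G Y : Type} [Group G] [MulAction G Y] {X : Sys G Y} {b : X.Base} {N : Subgroup G}
  {B₀ L₀ : ℕ}

/-- `f α₁ f α₂ f ... α_k f`. -/
def U (P : NPkg b N B₀ L₀) : List G → G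
  | [] => P.fp
  | x :: l => P.fp * (x * U P l)

/-- `x` is good between two blocks `true`. -/
def GdT (P : NPkg b N B₀ L₀) (x : G) : Prop :=
  Gd b P.K (P.y true (P.q - 1)) x (P.y true 0)

/-- The tuple of the word `U α * hm * (U β)⁻¹`. -/
def tupSeq (P : NPkg b N B₀ L₀) (α β : List G) (i : ℕ) : G :=
  (1 :: (α ++ P.hm :: (β.map (fun x => x⁻¹)).reverse)).getD i 1

theorem word_tup (P : NPkg b N B₀ L₀) (k : ℕ) (α β : List G) (hα : α.length = k)
    (hβ : β.length = k) :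
    word P.toPkg (tupSeq P α β) (fun i => decide (i ≤ k)) (2 * k + 2) =
      U P α * P.hm * (U P β)⁻¹ := by
  sorry

theorem ok_tup (P : NPkg b N B₀ L₀) (k : ℕ) (α β : List G) (hα : α.length = k)
    (hβ : β.length = k) (gα : ∀ x ∈ α, GdT P x) (gβ : ∀ x ∈ β, GdT P x) :
    Ok P.toPkg (tupSeq P α β) (fun i => decide (i ≤ k)) (2 * k + 2) := by
  sorry

theorem count_pairs (P : NPkg b N B₀ L₀)
    (hB₀ : ∀ y, ∀ e ∈ b.L, ∀ e' ∈ b.L, X.cr y e → X.cr y e' → X.d y e e' ≤ B₀)
    {n B : ℕ} (hL : 7 * X.κ + 2 * B₀ + B + 1 ≤ L₀)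
    {p : ℕ → G} (hp0 : p 0 = 1) (hB : ∀ y : Y, ∀ i < n, dd b y (p i) (p (i + 1)) ≤ B) (k : ℕ) :
    {z : List G × List G | z.1.length = k ∧ z.2.length = k ∧ (∀ x ∈ z.1, GdT P x) ∧
      (∀ x ∈ z.2, GdT P x) ∧ U P z.1 * P.hm * (U P z.2)⁻¹ = p n}.Finite ∧
    {z : List G × List G | z.1.length = k ∧ z.2.length = k ∧ (∀ x ∈ z.1, GdT P x) ∧
      (∀ x ∈ z.2, GdT P x) ∧ U P z.1 * P.hm * (U P z.2)⁻¹ = p n}.ncard ≤
      P.C ^ (2 * k + 2) * (n + 1).choose (P.q * (2 * k + 2)) := by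
  sorry

end Sys

end Pool.JohD
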